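import Pool.Agent.MP_52bf41_ag.H92.Pts
import Pool.Agent.MP_52bf41_ag.H1.Low

/-! The Chow groups of the mixed quotient are the invariant Chow groups. -/

open AlgebraicGeometry CategoryTheory Order

namespace Pool.Agent.MP_52bf41_ag.H92

open MvPolynomial IsLocalRing
open H1 hiding Fix res
open H12

variable {D N : ℕ}

section Key

variable {p q : PrimeSpectrum (AA D N)} (hp : p ∈ OP D N) (hq : q ∈ OP D N)
  {W : Scheme.{0}} [IsIntegral W] (i : W ⟶ (QQ D N).Y) (h0 : i (genericPoint W) = pt q hq)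

include h0

theorem gm_zero_iff {V : (QQ D N).Y.Opens} (h : i (genericPoint W) ∈ V) (c : Γ((QQ D N).Y, V)) :
    gm i (genericPoint W) h c = 0 ↔ val q hq (h0 ▸ h) c = 0 := by
  rw [val_eq_zero, ← h0, ← isUnit_gm i _ h]
  exact (not_congr (isUnit_iff_ne_zero (a := (gm i (genericPoint W) h c : W.functionField)))).trans
    not_not |>.symm

theorem gm_bb_zero {σ : II D N} (h : i (genericPoint W) ∈ (jj σ).opensRange) (b : BS σ) :
    gm i (genericPoint W) h (bb σ b) = 0 ↔ rho σ.1 q.asIdeal b = 0 := by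
  obtain ⟨u, hu⟩ := h
  rw [gm_zero_iff hq i h0, val_bb q hq (del_of_eq q hq (hu.trans h0))]

theorem cross {σ τ : II D N} (h : i (genericPoint W) ∈ (jj σ).opensRange)
    (h' : i (genericPoint W) ∈ (jj τ).opensRange) {a b : BS σ} {a' b' : BS τ}
    (e : gm i (genericPoint W) h (bb σ a) * gm i (genericPoint W) h' (bb τ b') =
      gm i (genericPoint W) h' (bb τ a') * gm i (genericPoint W) h (bb σ b)) :
    rho σ.1 q.asIdeal a * rho τ.1 q.asIdeal b' = rho τ.1 q.asIdeal a' * rho σ.1 q.asIdeal b := by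
  have h1 := (gm_zero_iff hq i h0 (V := (jj σ).opensRange ⊓ (jj τ).opensRange) ⟨h, h'⟩
    (res inf_le_left (bb σ a) * res inf_le_right (bb τ b') -
      res inf_le_right (bb τ a') * res inf_le_left (bb σ b))).mp (by
    rw [map_sub, map_mul, map_mul, gm_res, gm_res, gm_res, gm_res]
    exact sub_eq_zero.mpr e)
  obtain ⟨u, hu⟩ := h
  obtain ⟨u', hu'⟩ := h'
  have hσ := del_of_eq q hq (hu.trans h0)
  have hτ := del_of_eq q hq (hu'.trans h0)
  rw [map_sub, map_mul, map_mul, val_res, val_res, val_res, val_res, val_bb q hq hσ,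
    val_bb q hq hτ, val_bb q hq hσ, val_bb q hq hτ] at h1
  exact sub_eq_zero.mp h1

variable [IsClosedImmersion i]

theorem exists_frac {σ : II D N} (h : i (genericPoint W) ∈ (jj σ).opensRange)
    (f : W.functionField) : ∃ a b : BS σ, rho σ.1 q.asIdeal b ≠ 0 ∧
      f * gm i (genericPoint W) h (bb σ b) = gm i (genericPoint W) h (bb σ a) := by
  obtain ⟨u, hu⟩ := id h
  obtain ⟨a, b, hb, e⟩ := surj_gm (jj σ) (SS σ).ι i u hu h f
  rw [res_of_eq q hq (hu.trans h0)] at hb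
  exact ⟨a, b, fun h => hb (mem_res.mpr h), e⟩

theorem range_iff (h : H1.Inv p.asIdeal) (h' : H1.Inv q.asIdeal) :
    pt p hp ∈ Set.range i ↔ q.asIdeal ≤ p.asIdeal := by
  constructor
  · rintro ⟨z, hz⟩
    refine le_of_pt hp hq h h' ?_
    rw [← hz, ← h0]
    exact ((genericPoint_spec W).specializes trivial).map i.continuous
  · intro hle
    exact (pt_spec hp hq hle).mem_closed i.isClosedEmbedding.isClosed_range ⟨_, h0⟩

variable [IsLocallyNoetherian W]

theorem ord_bb {z : W} (hz : i z = pt p hp) (h1 : coheight z = 1) {τ : II D N}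
    (h : i z ∈ (jj τ).opensRange) (h' : i (genericPoint W) ∈ (jj τ).opensRange) {a : BS τ}
    (ha : rho τ.1 q.asIdeal a ≠ 0) :
    W.ord (gm i (genericPoint W) h' (bb τ a)) z =
      ordAt ⟨H1.res τ.1 p, inferInstance⟩ ⟨H1.res τ.1 q, inferInstance⟩ a := by
  obtain ⟨u, hu⟩ := id h
  obtain ⟨u0, hu0⟩ := id h'
  have h2 := alg_gm i z h h' (bb τ a)
  rw [← h2, ord_alg h1, ord_gm (jj τ) (SS τ).ι i hu h hu0, res_of_eq p hp (hu.trans hz),
    res_of_eq q hq (hu0.trans h0), ordAt_eq]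
  intro h3
  rw [h3, map_zero] at h2
  exact ha ((gm_bb_zero hq i h0 h' a).mp h2.symm)

theorem key {d : ℕ} (h : H1.Inv p.asIdeal) (h' : H1.Inv q.asIdeal) (hd : p.asIdeal.height = d)
    (hd' : q.asIdeal.height + 1 = d) {f : W.functionField} (hf : f ≠ 0) {F G : AA D N}
    (hF : F ∉ q.asIdeal) (hG : G ∉ q.asIdeal) {σ : II D N}
    (hσ : i (genericPoint W) ∈ (jj σ).opensRange) {a b : BS σ} (hb : rho σ.1 q.asIdeal b ≠ 0)
    (e1 : f * gm i (genericPoint W) hσ (bb σ b) = gm i (genericPoint W) hσ (bb σ a))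
    (e2 : rho σ.1 q.asIdeal a * aeval (gen q.asIdeal) G =
      aeval (gen q.asIdeal) F * rho σ.1 q.asIdeal b) {z : W} (hz : i z = pt p hp) :
    (W.ord f z : ℚ) = (ordAt p q F : ℚ) - ordAt p q G := by
  have h1 : coheight z = 1 := coheight_eq_one i (d := d)
    (by rw [h0, coheight_pt hq h', hd']) (by rw [hz, coheight_pt hp h, hd])
  obtain ⟨τ, u, hu⟩ := exists_chart hp
  have hτ := del_of_eq p hp hu
  have hτ' : delX τ.1 ℂ ∉ q.asIdeal := fun h2 => hτ ((range_iff hp hq i h0 h h').mp ⟨z, hz⟩ h2)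
  have hz' : i z ∈ (jj τ).opensRange := ⟨u, hu.trans hz.symm⟩
  have hη : i (genericPoint W) ∈ (jj τ).opensRange := h0 ▸ mem_range q hq hτ'
  obtain ⟨a', b', hb', e3⟩ := exists_frac hq i h0 hη f
  have hb2 := (gm_bb_zero hq i h0 hη b').not.mpr hb'
  have ha' : rho τ.1 q.asIdeal a' ≠ 0 :=
    (gm_bb_zero hq i h0 hη a').not.mp (e3 ▸ mul_ne_zero hf hb2)
  have e4 := cross hq i h0 hσ hη (a := a) (b := b) (a' := a') (b' := b') (by
    rw [← e1, ← e3]
    exact mul_right_comm _ _ _)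
  obtain ⟨m, F', G', hF', hG'⟩ := exists_num₂ a' b'
  have hu' := ((unit_gen hτ').pow m).ne_zero
  have e5 := congrArg (W.ord · z) e3
  simp only [Scheme.ord_mul hf hb2] at e5
  rw [ord_bb hp hq i h0 hz h1 hz' hη ha', ord_bb hp hq i h0 hz h1 hz' hη hb',
    ← hF'.ordAt h h' hτ hτ', ← hG'.ordAt h h' hτ hτ'] at e5
  rw [ordAt_cross hd' hd hF hG (f' := F') (g' := G')]
  · exact_mod_cast eq_sub_of_add_eq e5
  · rw [← aeval_gen, hF'.val hτ']
    exact mul_ne_zero ha' hu'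
  · rw [← aeval_gen, hG'.val hτ']
    exact mul_ne_zero hb' hu'
  · rw [← aeval_gen, map_sub, map_mul, map_mul, hF'.val hτ', hG'.val hτ']
    refine mul_left_cancel₀ hb ?_
    linear_combination (del τ.1 (gen q.asIdeal) ^ m * rho τ.1 q.asIdeal b') * e2 -
      (del τ.1 (gen q.asIdeal) ^ m * aeval (gen q.asIdeal) G) * e4

end Key

variable {d : ℕ} (hN : (d + 1) * (D + 1) ≤ N)

include hN in
theorem mem_OP_of_ht {e : ℕ} (he : e ≤ d) (p : Cyc (Grp ℂ D N) (Tails ℂ D N) e) :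
    p.1 ∈ OP D N := by
  refine mem_OP.mpr ⟨p.2.1, not_forall.mp fun h => ?_⟩
  have := ht_of_minor hN p.1 h
  rw [p.2.2.1, Nat.cast_lt] at this
  omega

/-- Invariant primes of height `d` are the points of codimension `d` of the quotient. -/
noncomputable def cycEquiv : Cyc (Grp ℂ D N) (Tails ℂ D N) d ≃ Cod (QQ D N).Y d :=
  Equiv.ofBijective (fun p => ⟨pt p.1 (mem_OP_of_ht hN le_rfl p),
    (coheight_pt _ p.2.2.2).trans p.2.2.1⟩)
    ⟨fun p q h => Subtype.ext (pt_inj _ _ p.2.2.2 q.2.2.2 (congrArg Subtype.val h)), fun y => by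
      obtain ⟨p, hp, h, e⟩ := pt_surj y.1
      exact ⟨⟨p, hp.1, (coheight_pt hp h).symm.trans (e ▸ y.2), h⟩, Subtype.ext e⟩⟩

theorem isDiv_iff (x : Cyc (Grp ℂ D N) (Tails ℂ D N) d →₀ ℚ) :
    IsDiv _ _ d x ↔ IsDivisor _ d (Finsupp.equivMapDomain (cycEquiv hN) x) := by
  constructor
  · rintro ⟨e, q, F, G, he, hF, hG, hI, hx⟩
    have hq := mem_OP_of_ht hN (by omega) q
    have hd : q.1.asIdeal.height + 1 = d := by rw [q.2.2.1, ← he, Nat.cast_succ]
    obtain ⟨W, _, _, i, _, h0⟩ := exists_integral (pt q.1 hq)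
    obtain ⟨σ, u, hu⟩ := exists_chart hq
    have hσ : i (genericPoint W) ∈ (jj σ).opensRange := ⟨u, hu.trans h0.symm⟩
    obtain ⟨a, b, hb, e2⟩ := exists_slice σ.2 (del_of_eq _ hq hu) hG hI
    have hb2 := (gm_bb_zero hq i h0 hσ b).not.mpr hb
    have ha : rho σ.1 q.1.asIdeal a ≠ 0 :=
      left_ne_zero_of_mul (e2 ▸ mul_ne_zero ((aeval_gen _ F).not.mpr hF) hb)
    obtain ⟨f, hf, e1⟩ : ∃ f : W.functionField, f ≠ 0 ∧
        f * gm i (genericPoint W) hσ (bb σ b) = gm i (genericPoint W) hσ (bb σ a) :=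
      ⟨_, div_ne_zero ((gm_bb_zero hq i h0 hσ a).not.mpr ha) hb2, div_mul_cancel₀ _ hb2⟩
    refine ⟨W, ‹_›, ‹_›, i, f, ‹_›, by rw [h0, coheight_pt hq q.2.2.2, hd], hf, fun y => ?_⟩
    obtain ⟨p, rfl⟩ := (cycEquiv hN).surjective y
    rw [Finsupp.equivMapDomain_apply, Equiv.symm_apply_apply, hx]
    refine ⟨fun w hw => (key _ hq i h0 p.2.2.2 q.2.2.2 p.2.2.1 hd hf hF hG hσ hb e1 e2 hw).symm,
      fun hw => ?_⟩
    have := (range_iff _ hq i h0 p.2.2.2 q.2.2.2).not.mp hw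
    rw [ordAt_eq_zero fun h => this h.1, ordAt_eq_zero fun h => this h.1, sub_self]
  · rintro ⟨W, _, _, i, f, _, hd, hf, hx⟩
    obtain ⟨q, hq, hI, h0⟩ := pt_surj (i (genericPoint W))
    rw [← h0, coheight_pt hq hI] at hd
    obtain ⟨e, he⟩ := ENat.ne_top_iff_exists.mp (show q.asIdeal.height ≠ ⊤ from fun h => by
      rw [h, top_add] at hd
      exact ENat.top_ne_coe _ hd)
    obtain ⟨σ, u, hu⟩ := exists_chart hq
    have hσ : i (genericPoint W) ∈ (jj σ).opensRange := ⟨u, hu.trans h0⟩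
    have hσ' := del_of_eq _ hq hu
    obtain ⟨a, b, hb, e1⟩ := exists_frac hq i h0.symm hσ f
    have ha : rho σ.1 q.asIdeal a ≠ 0 := (gm_bb_zero hq i h0.symm hσ a).not.mp
      (e1 ▸ mul_ne_zero hf ((gm_bb_zero hq i h0.symm hσ b).not.mpr hb))
    obtain ⟨m, F, G, hF, hG⟩ := exists_num₂ a b
    have hu' := ((unit_gen hσ').pow m).ne_zero
    have hF' : F ∉ q.asIdeal := by
      rw [← aeval_gen, hF.val hσ']
      exact mul_ne_zero ha hu'
    have hG' : G ∉ q.asIdeal := by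
      rw [← aeval_gen, hG.val hσ']
      exact mul_ne_zero hb hu'
    refine ⟨e, ⟨q, hq.1, he.symm, hI⟩, F, G, by rw [← he] at hd; exact_mod_cast hd, hF', hG',
      hF.inv hG hσ', fun p => ?_⟩
    have h1 := hx (cycEquiv hN p)
    rw [Finsupp.equivMapDomain_apply, Equiv.symm_apply_apply] at h1
    by_cases hw : (cycEquiv hN p).1 ∈ Set.range i
    · obtain ⟨w, hw⟩ := hw
      rw [h1.1 w hw]
      refine key _ hq i h0.symm p.2.2.2 hI p.2.2.1 hd hf hF' hG' hσ hb e1 ?_ hw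
      rw [hF.val hσ', hG.val hσ']
      ring
    · have := (range_iff _ hq i h0.symm p.2.2.2 hI).not.mp hw
      rw [h1.2 hw, ordAt_eq_zero fun h => this h.1, ordAt_eq_zero fun h => this h.1, sub_self]

theorem rank_CH (hD : d ≤ D) (hN : (d + 1) * (D + 1) ≤ N) :
    Module.rank ℚ (CH (QQ D N).Y d) = (Fintype.card d.Partition : ℕ) := by
  have E : Chow (Grp ℂ D N) (Tails ℂ D N) d ≃ₗ[ℚ] CH (QQ D N).Y d :=
    Submodule.Quotient.equiv _ _ (Finsupp.domLCongr (cycEquiv hN)) (by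
      rw [Submodule.map_span]
      congr 1
      ext c
      obtain ⟨x, rfl⟩ := (Finsupp.domLCongr (R := ℚ) (M := ℚ) (cycEquiv hN)).surjective c
      exact (Finsupp.domLCongr (R := ℚ) (M := ℚ) (cycEquiv hN)).injective.mem_set_image.trans
        (isDiv_iff hN x))
  have h := finrank_chow (k := ℂ) hD hN
  have : Module.Finite ℚ (Chow (Grp ℂ D N) (Tails ℂ D N) d) :=
    Module.finite_of_finrank_pos (h ▸ Fintype.card_pos)
  rw [← E.rank_eq, ← Module.finrank_eq_rank, h]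

end Pool.Agent.MP_52bf41_ag.H92
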