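import Pool.Agent.MP_52bf41_ag.H12.Defs

/-! Chow groups of schemes, and the mixed quotient `(X × U)/G` of Edidin and Graham. -/

open AlgebraicGeometry CategoryTheory

namespace Pool.Agent.MP_52bf41_ag.H92

open H1 H12

/-- Points of codimension `d`: the integral closed subschemes of codimension `d`. -/
abbrev Cod (Y : Scheme.{0}) (d : ℕ) : Type := {y : Y // Order.coheight y = d}

/-- `c` is the divisor of a nonzero rational function on an integral closed subscheme of
codimension `d - 1`. -/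
def IsDivisor (Y : Scheme.{0}) (d : ℕ) (c : Cod Y d →₀ ℚ) : Prop :=
  ∃ (W : Scheme.{0}) (_ : IsIntegral W) (_ : IsLocallyNoetherian W) (i : W ⟶ Y)
    (f : W.functionField), IsClosedImmersion i ∧ Order.coheight (i (genericPoint W)) + 1 = d ∧
    f ≠ 0 ∧ ∀ y : Cod Y d, (∀ w, i w = y.1 → c y = W.ord f w) ∧ (y.1 ∉ Set.range i → c y = 0)

/-- The Chow group of codimension `d` cycles modulo rational equivalence, with rational
coefficients. -/
abbrev CH (Y : Scheme.{0}) (d : ℕ) : Type :=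
  (Cod Y d →₀ ℚ) ⧸ Submodule.span ℚ {c | IsDivisor Y d c}

variable {D N : ℕ}

/-- `x' = g x` for points with values in `T` of the space of pairs of matrices. -/
def Moves {T : Scheme.{0}} (g : Matrix (Fin (D + 1)) (Fin (D + 1)) Γ(T, ⊤))
    (x x' : T ⟶ Spec (.of (MvPolynomial (Var D N) ℂ))) : Prop :=
  H12.Fix g ∧ pb x' = MvPolynomial.eval₂Hom ((pb x).comp MvPolynomial.C)
    (act g g⁻¹ fun v => pb x (MvPolynomial.X v))

/-- The maximal minor of the matrix `J` on the rows `σ`. -/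
noncomputable def minor (σ : Fin (D + 1) → Fin N) : MvPolynomial (Var D N) ℂ :=
  ((sections MvPolynomial.X).submatrix σ id).det

/-- `P = X × U`, where `U` is the set of injective matrices `J`, whose complement has codimension
more than `d`, and `π : P ⟶ Y` is a principal `G`-bundle: `G(T)` acts simply transitively on the
fibres of `P(T) → Y(T)`, and `π` has sections locally on `Y`. -/
structure Mixed {X P Y : Scheme.{0}} (ι : X ⟶ Spec (.of (MvPolynomial (Var D 0) ℂ)))
    (j : P ⟶ Spec (.of (MvPolynomial (Var D N) ℂ))) (π : P ⟶ Y) (d : ℕ) : Prop where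
  isOpen : IsOpenImmersion j
  range : ∀ p, p ∈ Set.range j ↔ PrimeSpectrum.comap (MvPolynomial.rename
    (Prod.map (Sum.map id Fin.elim0) id)).toRingHom p ∈ Set.range ι ∧ ∃ σ, minor σ ∉ p.asIdeal
  codim : ∀ p : PrimeSpectrum (MvPolynomial (Var D N) ℂ),
    (∀ σ, minor σ ∈ p.asIdeal) → d < p.asIdeal.height
  move : ∀ {T : Scheme.{0}} (x : T ⟶ P) g, H12.Fix g →
    ∃ x' : T ⟶ P, Moves g (x ≫ j) (x' ≫ j) ∧ x ≫ π = x' ≫ π
  fibre : ∀ {T : Scheme.{0}} (x x' : T ⟶ P), x ≫ π = x' ≫ π → ∃! g, Moves g (x ≫ j) (x' ≫ j)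
  sect : ∀ y : Y, ∃ (V : Y.Opens) (s : V.toScheme ⟶ P), y ∈ V ∧ s ≫ π = V.ι

end Pool.Agent.MP_52bf41_ag.H92
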