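import Pool.Agent.MP_52bf41_ag.H92.Slice

/-! Orders of vanishing upstairs and on the slice; invariant rational functions. -/

namespace Pool.Agent.MP_52bf41_ag.H92

open MvPolynomial H1 IsLocalRing

theorem len_flat {B C : Type*} [CommRing B] [CommRing C] (φ : B →+* C) (hφ : φ.Flat)
    (P : PrimeSpectrum C) (p : PrimeSpectrum B) (h : p.asIdeal = P.asIdeal.comap φ)
    (h' : p.asIdeal.map φ = P.asIdeal) (I : Ideal B) : len P (I.map φ) = len p I := by
  let O := Localization.AtPrime p.asIdeal
  let O' := Localization.AtPrime P.asIdeal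
  let l : O →+* O' := Localization.localRingHom p.asIdeal P.asIdeal φ h
  letI : Algebra O O' := l.toAlgebra
  have : Module.Flat O O' := hφ.localRingHom _ _ h
  have : IsLocalHom (algebraMap O O') := Localization.isLocalHom_localRingHom _ _ φ h
  have hc : ∀ J : Ideal B, (J.map (algebraMap B O)).map (algebraMap O O') =
      (J.map φ).map (algebraMap C O') := fun J => by
    rw [Ideal.map_map, Ideal.map_map]
    congr 1
    exact RingHom.ext fun b => Localization.localRingHom_to_map _ _ φ h b
  have h1 := length_baseChange O O' (O ⧸ I.map (algebraMap B O))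
  rw [← (Algebra.TensorProduct.quotIdealMapEquivTensorQuot O'
      (I.map (algebraMap B O))).toLinearEquiv.length_eq,
    Module.length_quotient, Module.length_quotient, Module.length_quotient, hc,
    ← Localization.AtPrime.map_eq_maximalIdeal, hc, h'] at h1
  rw [len, h1]
  have h2 := len_self P
  rw [len] at h2
  rw [h2, mul_one, len]

variable {D N : ℕ} {σ : Fin (D + 1) → Fin N} {k : Type*} [Field k]

/-- Functions on the slice as functions on the chart. -/
noncomputable def phiL (k : Type*) [Field k] (σ : Fin (D + 1) → Fin N) :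
    MvPolynomial (Sl σ) k →+* Loc σ k :=
  ((thEquiv σ k true).toRingHom.comp (algebraMap _ _)).comp (emb (slE k σ))

theorem phiL_apply (b : MvPolynomial (Sl σ) k) :
    phiL k σ b = aeval (th σ true (xL σ k)) (emb (slE k σ) b) :=
  hat_algebraMap (unit_th unit_xL true) _

theorem flat_alg : (algebraMap (MvPolynomial (Var D N) k) (Loc σ k)).Flat :=
  RingHom.flat_algebraMap_iff.mpr (IsLocalization.flat _ (Submonoid.powers (delX σ k)))

theorem flat_phiL : (phiL k σ).Flat := by
  refine RingHom.Flat.comp (RingHom.Flat.comp ?_ (.of_bijective (slE k σ).symm.bijective))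
    (flat_alg.comp (.of_bijective (thEquiv σ k true).bijective))
  exact RingHom.flat_algebraMap_iff.mpr inferInstance

/-- The prime of the chart over `p`. -/
noncomputable def upL {p : PrimeSpectrum (MvPolynomial (Var D N) k)} (h : delX σ k ∉ p.asIdeal) :
    PrimeSpectrum (Loc σ k) := ⟨RingHom.ker (hat (unit_gen h)), RingHom.ker_isPrime _⟩

section Up

variable {p : PrimeSpectrum (MvPolynomial (Var D N) k)} (h : delX σ k ∉ p.asIdeal)

theorem comap_upL : p.asIdeal = (upL h).asIdeal.comap (algebraMap _ _) := by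
  ext F
  rw [Ideal.mem_comap, upL, RingHom.mem_ker, hat_algebraMap, aeval_gen]

theorem map_upL : p.asIdeal.map (algebraMap _ _) = (upL h).asIdeal := by
  rw [comap_upL h]
  exact IsLocalization.map_under (Submonoid.powers (delX σ k)) _ _

theorem res_upL : res σ p = (upL h).asIdeal.comap (phiL k σ) := by
  ext b
  rw [Ideal.mem_comap, Ideal.mem_comap, upL, RingHom.mem_ker, phiL_apply, hat_th, mem_tw]

theorem map_res [Infinite k] (hp : H1.Inv p.asIdeal) :
    (res σ p).map (phiL k σ) = (upL h).asIdeal := by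
  have h1 : tw σ true p.asIdeal =
      ((upL h).asIdeal.comap (thEquiv σ k true).toRingHom).comap (algebraMap _ _) := by
    ext F
    rw [Ideal.mem_comap, Ideal.mem_comap, upL, RingHom.mem_ker, mem_tw, ← hat_th (unit_gen h)]
    have : (thEquiv σ k true).toRingHom (algebraMap _ _ F) = aeval (th σ true (xL σ k)) F :=
      hat_algebraMap (unit_th unit_xL true) F
    rw [this]
  rw [phiL, ← Ideal.map_map, ← ext_eq_map, ext_res' hp h, ← Ideal.map_map, h1]
  refine (congrArg _ (IsLocalization.map_under (Submonoid.powers (delX σ k)) _ _)).trans ?_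
  exact Ideal.map_comap_of_surjective _ (thEquiv σ k true).surjective _

end Up

/-- `F = del ^ m * b` on the chart. -/
def Num (σ : Fin (D + 1) → Fin N) (m : ℕ) (b : MvPolynomial (Sl σ) k)
    (F : MvPolynomial (Var D N) k) : Prop :=
  aeval (th σ true (xL σ k)) (emb (slE k σ) b) * algebraMap _ _ (delX σ k) ^ m = algebraMap _ _ F

theorem exists_num₂ (a b : MvPolynomial (Sl σ) k) : ∃ m F G, Num σ m a F ∧ Num σ m b G := by
  obtain ⟨m, F, hF⟩ := exists_num σ true (emb (slE k σ) a)
  obtain ⟨n, G, hG⟩ := exists_num σ true (emb (slE k σ) b)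
  refine ⟨m + n, F * delX σ k ^ n, G * delX σ k ^ m, ?_, ?_⟩
  · rw [Num, pow_add, ← mul_assoc, hF, map_mul, map_pow]
  · rw [Num, add_comm, pow_add, ← mul_assoc, hG, map_mul, map_pow]

theorem Num.val {m : ℕ} {b : MvPolynomial (Sl σ) k} {F : MvPolynomial (Var D N) k}
    (h : Num σ m b F) {q : Ideal (MvPolynomial (Var D N) k)} [q.IsPrime] (hq : delX σ k ∉ q) :
    aeval (gen q) F = rho σ q b * del σ (gen q) ^ m := by
  rw [num_spec h (unit_gen hq), aeval_emb]
  rfl

theorem Num.ordAt [Infinite k] {m : ℕ} {b : MvPolynomial (Sl σ) k}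
    {F : MvPolynomial (Var D N) k} (h : Num σ m b F)
    {p q : PrimeSpectrum (MvPolynomial (Var D N) k)} (hp : H1.Inv p.asIdeal)
    (hq : H1.Inv q.asIdeal) (h1 : delX σ k ∉ p.asIdeal) (h2 : delX σ k ∉ q.asIdeal) :
    ordAt p q F = ordAt ⟨res σ p, inferInstance⟩ ⟨res σ q, inferInstance⟩ b := by
  rw [ordAt_eq, ordAt_eq, ← len_flat _ flat_alg (upL h1) p (comap_upL h1) (map_upL h1),
    ← len_flat _ flat_phiL (upL h1) ⟨res σ p, inferInstance⟩ (res_upL h1) (map_res h1 hp),
    Ideal.map_sup, Ideal.map_sup, map_upL h2, map_res h2 hq, Ideal.map_span, Ideal.map_span,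
    Set.image_singleton, Set.image_singleton, ← h, phiL_apply,
    Ideal.span_singleton_mul_right_unit ((IsLocalization.Away.algebraMap_isUnit _).pow m)]

theorem Num.inv {m : ℕ} {a b : MvPolynomial (Sl σ) k} {F G : MvPolynomial (Var D N) k}
    (hF : Num σ m a F) (hG : Num σ m b G) {q : Ideal (MvPolynomial (Var D N) k)} [q.IsPrime]
    (hq : delX σ k ∉ q) : ∀ s ∈ Grp k D N, s F * G - F * s G ∈ q := by
  rintro s ⟨g, g', h1, h2, rfl⟩
  have hg := (show InP g g' from ⟨h1, h2⟩).map (algebraMap k q.ResidueField)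
  have hx := unit_gen hq
  have key : ∀ {a F}, Num σ m a F → aeval (gen q) (aeval (act (g.map C) (g'.map C) X) F :
      MvPolynomial (Var D N) k) =
      rho σ q a * (del σ (gen q) * (g'.map (algebraMap k q.ResidueField)).det) ^ m := by
    intro a F hF
    rw [aeval_pull, num_spec hF (unit_act hg hx), del_act hg,
      aeval_congr_supported (fun y hy => th_act hg hx hy) (emb_supported a), aeval_emb]
    rfl
  rw [← aeval_gen, map_sub, map_mul, map_mul, RingHom.coe_coe, key hF, key hG, hF.val hq,
    hG.val hq]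
  ring

theorem dens_LU [Infinite k] {K : Type*} [Field K] [Algebra k K] (Φ : LU D K)
    (h : ∀ (g g' : Sq D k) (hg : InP g g'), evU (hg.map (algebraMap k K)) Φ = 0) : Φ = 0 := by
  obtain ⟨m, a, ha⟩ := IsLocalization.Away.surj (gU D K).det Φ
  have h0 : a * (gU D K).det = 0 := by
    refine MvPolynomial.funext_set (fun _ => Set.range (algebraMap k K))
      (fun _ => Set.infinite_range_of_injective (algebraMap k K).injective) fun e he => ?_
    choose e0 he0 using fun p => he p (Set.mem_univ p)
    have hc : Col ((mkP e0).map (algebraMap k K)) := (col_mkP e0).map _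
    have he' : (fun p : Fin (D + 1) × Fin D => (mkP e0).map (algebraMap k K) p.1 p.2.succ) = e :=
      funext he0
    have hd := eval_det_gU hc
    rw [he'] at hd
    rw [map_mul, map_zero, hd]
    by_cases hz : (mkP e0).det = 0
    · rw [← RingHom.mapMatrix_apply, ← RingHom.map_det, hz, map_zero, mul_zero]
    have hP : InP (mkP e0) (mkP e0)⁻¹ := ⟨Matrix.mul_nonsing_inv _ (Ne.isUnit hz), col_mkP e0⟩
    have h1 := congrArg (evU (hP.map (algebraMap k K))) ha
    rw [map_mul, evU_algebraMap, he', h _ _ hP, zero_mul] at h1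
    rw [← h1, zero_mul]
  have hu : IsUnit (algebraMap _ (LU D K) (gU D K).det) := IsLocalization.Away.algebraMap_isUnit _
  have h1 := congrArg (algebraMap _ (LU D K)) h0
  rw [map_mul, map_zero, hu.mul_left_eq_zero] at h1
  rw [h1, (hu.pow m).mul_left_eq_zero] at ha
  exact ha

/-- An invariant rational function comes from the slice. -/
theorem exists_slice [Infinite k] (hσ : Function.Injective σ)
    {q : Ideal (MvPolynomial (Var D N) k)} [q.IsPrime] (hq : delX σ k ∉ q)
    {F G : MvPolynomial (Var D N) k} (hG : G ∉ q)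
    (h : ∀ s ∈ Grp k D N, s F * G - F * s G ∈ q) :
    ∃ a b : MvPolynomial (Sl σ) k, rho σ q b ≠ 0 ∧
      rho σ q a * aeval (gen q) G = aeval (gen q) F * rho σ q b := by
  have hx := unit_gen hq
  set x := gen q
  let n := act (mG σ true x) (mG σ false x) x
  have hn : InP (mG σ true x) (mG σ false x) := inP_mG hx true
  have h1 : ∀ g g' : Sq D q.ResidueField, InP g g' →
      aeval (act g g' x) F * aeval x G = aeval x F * aeval (act g g' x) G := by
    intro g g' hg
    have := dens_LU (k := k) (K := q.ResidueField)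
      (aeval (act (gL D _) (gL D _)⁻¹ fun y => algebraMap _ _ (x y)) F * algebraMap _ _ (aeval x G) - algebraMap _ _ (aeval x F) *
      aeval (act (gL D _) (gL D _)⁻¹ fun y => algebraMap _ _ (x y)) G) fun e e' he => by
        have h2 := (aeval_gen q _).mpr (h _ ⟨e, e', he.1, he.2, rfl⟩)
        rw [map_sub, map_mul, map_mul, RingHom.coe_coe, aeval_pull, aeval_pull] at h2
        rw [map_sub, map_mul, map_mul, evU_aeval, evU_aeval, evU_const, evU_const]
        exact h2
    have h3 := congrArg (evU hg) this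
    rw [map_sub, map_mul, map_mul, evU_aeval, evU_aeval, evU_const, evU_const, map_zero] at h3
    exact sub_eq_zero.mp h3
  obtain ⟨e, e', he, h2⟩ : ∃ e e' : Sq D k, InP e e' ∧
      aeval (act (e.map (algebraMap k _)) (e'.map (algebraMap k _)) n) G ≠ 0 := by
    by_contra hc
    push Not at hc
    have := dens_LU (k := k) (K := q.ResidueField)
      (aeval (act (gL D _) (gL D _)⁻¹ fun y => algebraMap _ _ (n y)) G)
      fun e e' he => (evU_aeval _ _ _).trans (hc e e' he)
    have h3 := congrArg (evU hn.symm) this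
    rw [evU_aeval, map_zero, hn.act_act] at h3
    exact hG ((aeval_gen q G).mp h3)
  have h4 : ∀ F : MvPolynomial (Var D N) k, rho σ q (sl k σ (aeval (act (e.map C) (e'.map C) X) F)) =
      aeval (act (e.map (algebraMap k _)) (e'.map (algebraMap k _)) n) F := fun F => by
    rw [rho, aeval_sl, sp_th hσ hx, aeval_pull]
  refine ⟨sl k σ (aeval (act (e.map C) (e'.map C) X) F),
    sl k σ (aeval (act (e.map C) (e'.map C) X) G), (h4 G).symm ▸ h2, ?_⟩
  rw [h4, h4, act_act (he.map _).2]
  exact h1 _ _ ((he.map _).mul hn)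

end Pool.Agent.MP_52bf41_ag.H92
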