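import Pool.Agent.MP_52bf41_ag.H53.Univ
import Pool.Agent.MP_52bf41_ag.H1.Len

/-! Orders of vanishing on an integral closed subscheme, read in a chart. -/

open AlgebraicGeometry CategoryTheory Order

namespace Pool.Agent.MP_52bf41_ag.H92

open H1 H12

section Germ

variable {W Y : Scheme.{0}} (i : W ⟶ Y)

/-- The germ at `z` of the pull-back of a function. -/
noncomputable def gm {V : Y.Opens} (z : W) (hz : i z ∈ V) : Γ(Y, V) →+* W.presheaf.stalk z :=
  (W.presheaf.germ (i ⁻¹ᵁ V) z hz).hom.comp (i.app V).hom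

theorem gm_eq {V : Y.Opens} (z : W) (hz : i z ∈ V) (a : Γ(Y, V)) :
    gm i z hz a = i.stalkMap z (Y.presheaf.germ V (i z) hz a) :=
  (Scheme.Hom.germ_stalkMap_apply i V z hz a).symm

theorem gm_res {V V' : Y.Opens} (h : V' ≤ V) (z : W) (hz : i z ∈ V') (a : Γ(Y, V)) :
    gm i z hz (res h a) = gm i z (h hz) a := by
  rw [gm_eq, gm_eq, res, TopCat.Presheaf.germ_res_apply]

theorem isUnit_gm {V : Y.Opens} (z : W) (hz : i z ∈ V) (a : Γ(Y, V)) :
    IsUnit (gm i z hz a) ↔ i z ∈ Y.basicOpen a := by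
  rw [gm_eq, isUnit_map_iff, Scheme.mem_basicOpen]

theorem gm_pl {V : Y.Opens} {U : W.Opens} (h : U ≤ i ⁻¹ᵁ V) (z : W) (hz : z ∈ U) (a : Γ(Y, V)) :
    gm i z (h hz) a = W.presheaf.germ U z hz (pl i h a) :=
  (TopCat.Presheaf.germ_res_apply W.presheaf (homOfLE h) z hz _).symm

theorem alg_gm [IrreducibleSpace W] {V : Y.Opens} (z : W) (hz : i z ∈ V)
    (h0 : i (genericPoint W) ∈ V) (a : Γ(Y, V)) :
    algebraMap _ W.functionField (gm i z hz a) = gm i (genericPoint W) h0 a := by
  have : Nonempty (i ⁻¹ᵁ V : W.Opens) := ⟨⟨z, hz⟩⟩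
  exact Scheme.algebraMap_germ_eq_germToFunctionField W (U := i ⁻¹ᵁ V) hz _

end Germ

theorem mem_pt {T : Scheme.{0}} {B : Type} [CommRing B] (k : T ⟶ Spec (.of B)) (u : T) (b : B) :
    b ∈ (k u).asIdeal ↔ u ∉ T.basicOpen (pb k b) := by
  rw [H53.basicOpen_pb]
  exact not_not.symm

theorem top_le_range {Y S : Scheme.{0}} (j : S ⟶ Y) [IsOpenImmersion j] :
    ⊤ ≤ j ⁻¹ᵁ j.opensRange := fun x _ => ⟨x, rfl⟩

theorem bijective_pl {Y S : Scheme.{0}} (j : S ⟶ Y) [IsOpenImmersion j] :
    Function.Bijective (pl j (top_le_range j)) := by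
  have : j.appLE j.opensRange ⊤ (top_le_range j) = (IsOpenImmersion.ΓIsoTop j).inv := by
    simp only [IsOpenImmersion.ΓIsoTop, Iso.trans_inv, Functor.mapIso_inv, Iso.op_inv,
      eqToIso.inv, eqToHom_op, Iso.symm_inv, Scheme.Hom.appIso_hom', Scheme.Hom.map_appLE]
  rw [pl, this]
  exact (IsOpenImmersion.ΓIsoTop j).symm.commRingCatIsoToRingEquiv.bijective

section Chart

variable {Y S : Scheme.{0}} {B : Type} [CommRing B] (j : S ⟶ Y) [IsOpenImmersion j]
  (k : S ⟶ Spec (.of B))

/-- Elements of `B` as functions on the chart. -/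
noncomputable def beta : B →+* Γ(Y, j.opensRange) :=
  (RingEquiv.ofBijective _ (bijective_pl j)).symm.toRingHom.comp (pb k)

theorem pl_beta (b : B) : pl j (top_le_range j) (beta j k b) = pb k b :=
  (RingEquiv.ofBijective _ (bijective_pl j)).apply_symm_apply _

theorem mem_beta (u : S) (b : B) : j u ∈ Y.basicOpen (beta j k b) ↔ b ∉ (k u).asIdeal := by
  rw [mem_pt, not_not, ← pl_beta j, basicOpen_pl]
  exact ⟨fun h => ⟨trivial, h⟩, fun h => h.2⟩

variable [IsOpenImmersion k]

theorem surj_stalk (u : S) {y : Y} (h : j u = y) (hy : y ∈ j.opensRange)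
    (t : Y.presheaf.stalk y) : ∃ a b : B, b ∉ (k u).asIdeal ∧
      t * Y.presheaf.germ _ y hy (beta j k b) = Y.presheaf.germ _ y hy (beta j k a) := by
  subst h
  letI : Algebra Γ(Spec (.of B), ⊤) ((Spec (.of B)).presheaf.stalk (k u)) :=
    ((Spec (.of B)).presheaf.germ ⊤ (k u) trivial).hom.toAlgebra
  have h1 : IsLocalization.AtPrime ((Spec (.of B)).presheaf.stalk (k u))
      ((isAffineOpen_top (Spec (.of B))).primeIdealOf ⟨k u, trivial⟩).asIdeal :=
    (isAffineOpen_top (Spec (.of B))).isLocalization_stalk ⟨k u, trivial⟩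
  obtain ⟨t', ht'⟩ := (asIso (k.stalkMap u)).commRingCatIsoToRingEquiv.surjective (j.stalkMap u t)
  obtain ⟨⟨a, b⟩, hab⟩ := IsLocalization.surj
    ((isAffineOpen_top (Spec (.of B))).primeIdealOf ⟨k u, trivial⟩).asIdeal.primeCompl
    (S := (Spec (.of B)).presheaf.stalk (k u)) t'
  have hb := IsLocalization.map_units ((Spec (.of B)).presheaf.stalk (k u)) b
  obtain ⟨a, rfl⟩ := pb_id_bijective.2 a
  obtain ⟨b', hb'⟩ := pb_id_bijective.2 b.1
  have h2 : ∀ c, j.stalkMap u (Y.presheaf.germ _ _ hy (beta j k c)) =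
      k.stalkMap u ((Spec (.of B)).presheaf.germ ⊤ (k u) trivial (pb (𝟙 _) c)) := fun c => by
    rw [← gm_eq, ← gm_eq, gm_pl j (top_le_range j) u trivial, pl_beta,
      gm_pl k (U := ⊤) le_top u trivial, pl_top, ← pb_comp, Category.comp_id]
  refine ⟨a, b', ?_, (asIso (j.stalkMap u)).commRingCatIsoToRingEquiv.injective ?_⟩
  · rw [← hb'] at hb
    have h3 := ((Spec (.of B)).mem_basicOpen (U := ⊤) _ (k u) trivial).mpr hb
    exact fun h4 => (mem_pt (𝟙 _) (k u) b').mp h4 h3
  · change j.stalkMap u _ = j.stalkMap u _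
    rw [map_mul, h2, h2, hb', ← ht']
    exact (map_mul (k.stalkMap u).hom _ _).symm.trans (congrArg (k.stalkMap u) hab)

variable {W : Scheme.{0}} (i : W ⟶ Y) [IsClosedImmersion i]

theorem surj_gm (u : S) {z : W} (h : j u = i z) (hz : i z ∈ j.opensRange)
    (t : W.presheaf.stalk z) : ∃ a b : B, b ∉ (k u).asIdeal ∧
      t * gm i z hz (beta j k b) = gm i z hz (beta j k a) := by
  obtain ⟨t, rfl⟩ := i.stalkMap_surjective z t
  obtain ⟨a, b, hb, hab⟩ := surj_stalk j k u h hz t
  exact ⟨a, b, hb, by rw [gm_eq, gm_eq, ← map_mul, hab]⟩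

variable [IsIntegral W]

omit [IsOpenImmersion k] [IsClosedImmersion i] in
theorem gm_eq_zero {u : S} (h : j u = i (genericPoint W)) (h0 : i (genericPoint W) ∈ j.opensRange)
    (b : B) : gm i (genericPoint W) h0 (beta j k b) = 0 ↔ b ∈ (k u).asIdeal := by
  rw [← not_iff_not, ← mem_beta j, h, ← isUnit_gm i _ h0]
  exact isUnit_iff_ne_zero.symm

theorem ord_gm {u u0 : S} {z : W} (h : j u = i z) (hz : i z ∈ j.opensRange)
    (h' : j u0 = i (genericPoint W)) (a : B) :
    Ring.ord _ (gm i z hz (beta j k a)) = len (k u) ((k u0).asIdeal ⊔ Ideal.span {a}) := by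
  have h0 : i (genericPoint W) ∈ j.opensRange := ⟨u0, h'⟩
  let ψ : B →+* W.presheaf.stalk z := (gm i z hz).comp (beta j k)
  have hu : ∀ b : (k u).asIdeal.primeCompl, IsUnit (ψ b) := fun b =>
    (isUnit_gm i z hz _).mpr (h ▸ (mem_beta j k u b).mpr b.2)
  let φ : Localization.AtPrime (k u).asIdeal →+* W.presheaf.stalk z := IsLocalization.lift hu
  have hφ : ∀ b, φ (algebraMap B _ b) = ψ b := IsLocalization.lift_eq hu
  have hs : Function.Surjective φ := (IsLocalization.lift_surjective_iff hu).mpr fun t => by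
    obtain ⟨a, b, hb, hab⟩ := surj_gm j k i u h hz t
    exact ⟨⟨a, b, hb⟩, hab⟩
  have hk : RingHom.ker φ = (k u0).asIdeal.map (algebraMap B _) := by
    rw [← IsLocalization.map_under (k u).asIdeal.primeCompl _ (RingHom.ker φ)]
    congr 1
    ext b
    rw [Ideal.under_def, Ideal.mem_comap, RingHom.mem_ker, hφ, ← gm_eq_zero j k i h' h0,
      ← alg_gm i z hz h0, map_eq_zero_iff _ (IsFractionRing.injective _ _)]
    rfl
  rw [Ring.ord, Module.length_quotient, ← Ideal.coheight_comap_of_surjective φ hs, len]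
  congr 1
  change Ideal.comap φ (Ideal.span {ψ a}) = _
  rw [← hφ, ← Set.image_singleton, ← Ideal.map_span, Ideal.comap_map_of_surjective _ hs,
    ← RingHom.ker_eq_comap_bot, hk, Ideal.map_sup, Ideal.map_span, Set.image_singleton, sup_comm]

end Chart

theorem ord_alg {W : Scheme.{0}} [IsIntegral W] [IsLocallyNoetherian W] {z : W}
    (hz : coheight z = 1) {c : W.presheaf.stalk z} (hc : c ≠ 0) :
    W.ord (algebraMap _ W.functionField c) z = (Ring.ord _ c).toNat := by
  have : Ring.KrullDimLE 1 (W.presheaf.stalk z) := krullDimLE_of_coheight_le hz.le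
  have h1 := mem_nonZeroDivisors_of_ne_zero hc
  rw [Scheme.ord_eq_iff hz ((map_ne_zero_iff _ (IsFractionRing.injective _ _)).mpr hc),
    Scheme.ordHom, Ring.ordFrac_eq_ord _ hc]
  exact Ring.ordMonoidWithZeroHom_eq_coe _ h1 (ENat.coe_toNat (Ring.ord_ne_top h1)).symm

theorem coheight_eq_one {W Y : Scheme.{0}} [IsIntegral W] (i : W ⟶ Y) [IsClosedImmersion i]
    {z : W} {d : ℕ} (h0 : coheight (i (genericPoint W)) + 1 = d) (hz : coheight (i z) = d) :
    coheight z = 1 := by
  have hle : ∀ a b : W, i a ≤ i b ↔ a ≤ b := fun a b => i.isEmbedding.specializes_iff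
  have hlt : ∀ a b : W, i a < i b ↔ a < b := fun a b => by
    rw [lt_iff_le_not_ge, lt_iff_le_not_ge, hle, hle]
  have hfin : coheight (i (genericPoint W)) < ⊤ := by
    refine lt_of_le_of_lt (le_self_add (b := 1)) ?_
    rw [h0]
    exact ENat.coe_lt_top d
  refine le_antisymm (coheight_le_coe_iff (n := 1).mpr fun y hy => ?_) ?_
  · rw [Nat.cast_one, ENat.lt_one_iff_eq_zero, coheight_eq_zero]
    have h1 := coheight_add_one_le ((hlt _ _).mpr hy)
    by_contra hm
    obtain ⟨y', hy'⟩ := not_isMax_iff.mp hm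
    have h2 := coheight_add_one_le ((hlt y ⊤).mpr (lt_of_lt_of_le hy' le_top))
    rw [hz, ← h0] at h1
    have h3 := (add_le_add_left h2 1).trans h1
    exact absurd ((ENat.add_le_add_iff_right ENat.one_ne_top).mp h3)
      (not_le.mpr ((ENat.lt_add_one_iff hfin.ne).mpr le_rfl))
  · rw [ENat.one_le_iff_ne_zero, coheight_ne_zero]
    intro hm
    have h1 := coheight_anti ((hle ⊤ z).mpr (hm le_top))
    rw [hz, ← h0] at h1
    exact absurd h1 (not_le.mpr ((ENat.lt_add_one_iff hfin.ne).mpr le_rfl))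

/-- The integral closed subscheme with a given generic point. -/
theorem exists_integral {Y : Scheme.{0}} [IsLocallyNoetherian Y] (w : Y) :
    ∃ (W : Scheme.{0}) (_ : IsIntegral W) (_ : IsLocallyNoetherian W) (i : W ⟶ Y),
      IsClosedImmersion i ∧ i (genericPoint W) = w := by
  let f := Y.fromSpecResidueField w
  have : QuasiCompact f := ⟨fun U _ _ => (Set.toFinite _).isCompact⟩
  have h1 : IrreducibleSpace f.image := by
    have := f.toImage.denseRange
    refine @IrreducibleSpace.mk _ _ ⟨?_⟩ ⟨f.toImage default⟩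
    rw [← this.closure_eq, isPreirreducible_iff_closure, ← Set.image_univ]
    exact (PreirreducibleSpace.isPreirreducible_univ).image _ f.toImage.continuous.continuousOn
  have h2 : IsReduced f.image := by
    have : ∀ U : Y.affineOpens, IsReduced (f.imageι ⁻¹ᵁ U.1).toScheme := fun U => by
      have h3 : IsAffine (f.imageι ⁻¹ᵁ U.1).toScheme := U.2.preimage _
      have h4 : _root_.IsReduced Γ(f.image, f.imageι ⁻¹ᵁ U.1) :=
        isReduced_of_injective _ (f.toImage_app_injective U)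
      have h5 : _root_.IsReduced Γ((f.imageι ⁻¹ᵁ U.1).toScheme, ⊤) :=
        isReduced_of_injective _ (f.imageι ⁻¹ᵁ U.1).topIso.commRingCatIsoToRingEquiv.injective
      exact isReduced_of_isAffine_isReduced _
    exact @IsReduced.of_openCover _ (f.image.openCoverOfIsOpenCover
      (fun U : Y.affineOpens => f.imageι ⁻¹ᵁ U.1)
      (f.imageι.iSup_preimage_eq_top (iSup_affineOpens_eq_top Y))) this
  have h3 : IsIntegral f.image := isIntegral_of_irreducibleSpace_of_isReduced _
  refine ⟨f.image, h3, LocallyOfFiniteType.isLocallyNoetherian f.imageι, f.imageι, inferInstance,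
    ?_⟩
  have h4 : genericPoint f.image = f.toImage default := by
    refine (genericPoint_spec f.image).eq ?_
    rw [isGenericPoint_def, ← f.toImage.denseRange.closure_eq, Set.range_unique]
  rw [h4, ← Scheme.Hom.comp_apply, f.toImage_imageι]
  exact Y.fromSpecResidueField_apply w _

end Pool.Agent.MP_52bf41_ag.H92
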