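import Mathlib

/-! The quotient of a scheme by an equivalence relation on points which has local slices. -/

open AlgebraicGeometry CategoryTheory Limits

namespace Pool.Agent.MP_52bf41_ag.H92

/-- An equivalence relation on the points of `P` with values in schemes, with local slices. -/
structure Slices (P : Scheme.{0}) (I : Type) where
  R : ∀ {T : Scheme.{0}}, (T ⟶ P) → (T ⟶ P) → Prop
  O : I → P.Opens
  S : I → Scheme.{0}
  s : ∀ i, S i ⟶ P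
  r : ∀ i, (O i).toScheme ⟶ S i
  refl : ∀ {T : Scheme.{0}} (x : T ⟶ P), R x x
  symm : ∀ {T : Scheme.{0}} {x x' : T ⟶ P}, R x x' → R x' x
  trans : ∀ {T : Scheme.{0}} {x x' x'' : T ⟶ P}, R x x' → R x' x'' → R x x''
  comp : ∀ {T' T : Scheme.{0}} (h : T' ⟶ T) {x x' : T ⟶ P}, R x x' → R (h ≫ x) (h ≫ x')
  cover : ∀ p, ∃ i, p ∈ O i
  sat : ∀ {T : Scheme.{0}} {x x' : T ⟶ P}, R x x' → ∀ i t, x t ∈ O i → x' t ∈ O i
  mem : ∀ i z, s i z ∈ O i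
  rs : ∀ i, R (O i).ι (r i ≫ s i)
  uniq : ∀ {T : Scheme.{0}} (i) (p p' : T ⟶ S i), R (p ≫ s i) (p' ≫ s i) → p = p'

namespace Slices

variable {P : Scheme.{0}} {I : Type} (Q : Slices P I)

theorem exists_lift {T X : Scheme.{0}} (U : X.Opens) (x : T ⟶ X) (h : ∀ t, x t ∈ U) :
    ∃ q : T ⟶ U.toScheme, q ≫ U.ι = x :=
  ⟨IsOpenImmersion.lift U.ι x (by
    rintro _ ⟨t, rfl⟩
    rw [Scheme.Opens.range_ι]
    exact h t), IsOpenImmersion.lift_fac _ _ _⟩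

theorem exists_rel {T : Scheme.{0}} (k : I) (x : T ⟶ P) (h : ∀ t, x t ∈ Q.O k) :
    ∃ p : T ⟶ Q.S k, Q.R x (p ≫ Q.s k) := by
  obtain ⟨q, rfl⟩ := exists_lift _ x h
  exact ⟨q ≫ Q.r k, by simpa only [Category.assoc] using Q.comp q (Q.rs k)⟩

/-- The overlap inside a slice. -/
def V (i k : I) : (Q.S i).Opens := Q.s i ⁻¹ᵁ Q.O k

theorem exists_t (i k : I) : ∃ t : (Q.V i k).toScheme ⟶ (Q.V k i).toScheme,
    Q.R ((Q.V i k).ι ≫ Q.s i) (t ≫ (Q.V k i).ι ≫ Q.s k) := by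
  obtain ⟨p, hp⟩ := Q.exists_rel k ((Q.V i k).ι ≫ Q.s i) fun z => z.2
  obtain ⟨t, rfl⟩ := exists_lift (Q.V k i) p fun z => Q.sat hp i z (Q.mem i _)
  exact ⟨t, by simpa only [Category.assoc] using hp⟩

/-- The transition map. -/
noncomputable def t (i k : I) : (Q.V i k).toScheme ⟶ (Q.V k i).toScheme := (Q.exists_t i k).choose

theorem t_rel (i k : I) : Q.R ((Q.V i k).ι ≫ Q.s i) (Q.t i k ≫ (Q.V k i).ι ≫ Q.s k) :=
  (Q.exists_t i k).choose_spec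

theorem exists_t' (i j l : I) :
    ∃ t' : pullback (Q.V i j).ι (Q.V i l).ι ⟶ pullback (Q.V j l).ι (Q.V j i).ι,
      t' ≫ pullback.snd _ _ = pullback.fst _ _ ≫ Q.t i j := by
  have h1 := Q.comp (pullback.fst (Q.V i j).ι (Q.V i l).ι) (Q.t_rel i j)
  obtain ⟨q, hq⟩ := exists_lift (Q.V j l)
    (pullback.fst (Q.V i j).ι (Q.V i l).ι ≫ Q.t i j ≫ (Q.V j i).ι) fun z => by
      refine Q.sat h1 l z ?_
      rw [← Category.assoc, pullback.condition]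
      exact (pullback.snd (Q.V i j).ι (Q.V i l).ι z).2
  exact ⟨pullback.lift q (pullback.fst _ _ ≫ Q.t i j) (by rw [hq, Category.assoc]),
    pullback.lift_snd _ _ _⟩

/-- The transition map on triple overlaps. -/
noncomputable def t' (i j l : I) :
    pullback (Q.V i j).ι (Q.V i l).ι ⟶ pullback (Q.V j l).ι (Q.V j i).ι :=
  (Q.exists_t' i j l).choose

theorem t'_fac (i j l : I) : Q.t' i j l ≫ pullback.snd _ _ = pullback.fst _ _ ≫ Q.t i j :=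
  (Q.exists_t' i j l).choose_spec

theorem t'_rel (i j l : I) :
    Q.R ((pullback.fst (Q.V i j).ι (Q.V i l).ι ≫ (Q.V i j).ι) ≫ Q.s i)
      (Q.t' i j l ≫ (pullback.fst (Q.V j l).ι (Q.V j i).ι ≫ (Q.V j l).ι) ≫ Q.s j) := by
  rw [pullback.condition (f := (Q.V j l).ι), Category.assoc, Category.assoc, ← Category.assoc (Q.t' i j l),
    t'_fac, Category.assoc]
  exact Q.comp _ (Q.t_rel i j)

/-- The glue data. -/
noncomputable def gd : Scheme.GlueData.{0} where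
  J := I
  U i := Q.S i
  V σ := (Q.V σ.1 σ.2).toScheme
  f i j := (Q.V i j).ι
  f_id i := by
    apply isIso_of_isOpenImmersion_of_opensRange_eq_top
    rw [Scheme.Opens.opensRange_ι]
    exact top_le_iff.mp fun z _ => Q.mem i z
  t i j := Q.t i j
  t_id i := by
    rw [← cancel_mono (Q.V i i).ι, Category.id_comp]
    refine Q.uniq i _ _ (Q.symm ?_)
    simpa only [Category.assoc] using Q.t_rel i i
  t' i j l := Q.t' i j l
  t_fac i j l := Q.t'_fac i j l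
  cocycle i j l := by
    rw [← cancel_mono (pullback.fst (Q.V i j).ι (Q.V i l).ι ≫ (Q.V i j).ι), Category.id_comp]
    have h1 := Q.t'_rel i j l
    have h2 := Q.comp (Q.t' i j l) (Q.t'_rel j l i)
    have h3 := Q.comp (Q.t' i j l) (Q.comp (Q.t' j l i) (Q.t'_rel l i j))
    refine Q.uniq i _ _ (Q.symm ?_)
    simpa only [Category.assoc] using Q.trans (Q.trans h1 h2) h3
  f_open i j := inferInstanceAs (IsOpenImmersion (Q.V i j).ι)

/-- The quotient. -/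
noncomputable def Y : Scheme.{0} := Q.gd.glued

/-- The slices are open in the quotient. -/
noncomputable def j (i : I) : Q.S i ⟶ Q.Y := Q.gd.ι i

instance (i : I) : IsOpenImmersion (Q.j i) := Q.gd.ι_isOpenImmersion i

theorem j_surj (y : Q.Y) : ∃ i z, Q.j i z = y := Q.gd.ι_jointly_surjective y

theorem rel_of_eq {T : Scheme.{0}} {i k : I} (p : T ⟶ Q.S i) (p' : T ⟶ Q.S k)
    (h : p ≫ Q.j i = p' ≫ Q.j k) : Q.R (p ≫ Q.s i) (p' ≫ Q.s k) := by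
  obtain ⟨q, h1, h2⟩ : ∃ q : T ⟶ (Q.V i k).toScheme, q ≫ (Q.V i k).ι = p ∧
      q ≫ Q.t i k ≫ (Q.V k i).ι = p' := by
    obtain ⟨q, h1, h2⟩ := PullbackCone.IsLimit.lift' (Q.gd.vPullbackConeIsLimit i k) p p' h
    exact ⟨q, h1, h2⟩
  rw [← h1, ← h2]
  simpa only [Category.assoc] using Q.comp q (Q.t_rel i k)

theorem eq_of_rel {T : Scheme.{0}} {i k : I} (p : T ⟶ Q.S i) (p' : T ⟶ Q.S k)
    (h : Q.R (p ≫ Q.s i) (p' ≫ Q.s k)) : p ≫ Q.j i = p' ≫ Q.j k := by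
  obtain ⟨q, rfl⟩ := exists_lift (Q.V i k) p fun z => Q.sat (Q.symm h) k z (Q.mem k _)
  have h1 : p' = q ≫ Q.t i k ≫ (Q.V k i).ι := by
    refine Q.uniq k _ _ (Q.trans (Q.symm h) ?_)
    simpa only [Category.assoc] using Q.comp q (Q.t_rel i k)
  have h2 : Q.t i k ≫ (Q.V k i).ι ≫ Q.j k = (Q.V i k).ι ≫ Q.j i := Q.gd.glue_condition i k
  rw [h1, Category.assoc, Category.assoc, Category.assoc, h2]

/-- The open cover of `P`. -/
noncomputable def cov : P.OpenCover :=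
  P.openCoverOfIsOpenCover Q.O (top_le_iff.mp fun p _ =>
    TopologicalSpace.Opens.mem_iSup.mpr (Q.cover p))

theorem exists_pi : ∃ π : P ⟶ Q.Y, ∀ i, (Q.O i).ι ≫ π = Q.r i ≫ Q.j i := by
  have hs : ∀ i k, pullback.fst (Q.O i).ι (Q.O k).ι ≫ Q.r i ≫ Q.j i =
      pullback.snd (Q.O i).ι (Q.O k).ι ≫ Q.r k ≫ Q.j k := by
    intro i k
    rw [← Category.assoc, ← Category.assoc]
    refine Q.eq_of_rel _ _ ?_
    have h1 := Q.comp (pullback.fst (Q.O i).ι (Q.O k).ι) (Q.rs i)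
    have h2 := Q.comp (pullback.snd (Q.O i).ι (Q.O k).ι) (Q.rs k)
    rw [← pullback.condition] at h2
    simpa only [Category.assoc] using Q.trans (Q.symm h1) h2
  exact ⟨Scheme.Cover.glueMorphisms Q.cov (fun i => Q.r i ≫ Q.j i) hs,
    fun i => Scheme.Cover.ι_glueMorphisms Q.cov (fun i => Q.r i ≫ Q.j i) hs i⟩

/-- The quotient map. -/
noncomputable def π : P ⟶ Q.Y := Q.exists_pi.choose

theorem ι_π (i : I) : (Q.O i).ι ≫ Q.π = Q.r i ≫ Q.j i := Q.exists_pi.choose_spec i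

theorem π_of_rel {T : Scheme.{0}} {i : I} {x : T ⟶ P} {p : T ⟶ Q.S i} (h : Q.R x (p ≫ Q.s i)) :
    x ≫ Q.π = p ≫ Q.j i := by
  obtain ⟨q, rfl⟩ := exists_lift (Q.O i) x fun z => Q.sat (Q.symm h) i z (Q.mem i _)
  rw [Category.assoc, ι_π, ← Category.assoc]
  refine Q.eq_of_rel _ _ (Q.trans (Q.symm ?_) h)
  simpa only [Category.assoc] using Q.comp q (Q.rs i)

theorem s_π (i : I) : Q.s i ≫ Q.π = Q.j i := by
  simpa using Q.π_of_rel (p := 𝟙 _) (x := Q.s i) (by simpa using Q.refl _)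

theorem π_eq_of_rel {T : Scheme.{0}} {x x' : T ⟶ P} (h : Q.R x x') : x ≫ Q.π = x' ≫ Q.π := by
  refine Scheme.Cover.hom_ext (T.openCoverOfIsOpenCover (fun i => x ⁻¹ᵁ Q.O i)
    (top_le_iff.mp fun t _ => TopologicalSpace.Opens.mem_iSup.mpr (Q.cover (x t)))) _ _ fun i => ?_
  obtain ⟨p, hp⟩ := Q.exists_rel i ((x ⁻¹ᵁ Q.O i).ι ≫ x) fun z => z.2
  have h1 := Q.π_of_rel hp
  have h2 := Q.π_of_rel (Q.trans (Q.symm (Q.comp (x ⁻¹ᵁ Q.O i).ι h)) hp)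
  have h3 := h1.trans h2.symm
  rw [Category.assoc, Category.assoc] at h3
  exact h3

theorem rel_of_π_eq {T : Scheme.{0}} {x x' : T ⟶ P} (h : x ≫ Q.π = x' ≫ Q.π) (t : T) :
    ∃ W : T.Opens, t ∈ W ∧ Q.R (W.ι ≫ x) (W.ι ≫ x') := by
  obtain ⟨i, hi⟩ := Q.cover (x t)
  obtain ⟨k, hk⟩ := Q.cover (x' t)
  refine ⟨x ⁻¹ᵁ Q.O i ⊓ x' ⁻¹ᵁ Q.O k, ⟨hi, hk⟩, ?_⟩
  obtain ⟨p, hp⟩ := Q.exists_rel i ((x ⁻¹ᵁ Q.O i ⊓ x' ⁻¹ᵁ Q.O k).ι ≫ x) fun z => z.2.1
  obtain ⟨p', hp'⟩ := Q.exists_rel k ((x ⁻¹ᵁ Q.O i ⊓ x' ⁻¹ᵁ Q.O k).ι ≫ x') fun z => z.2.2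
  refine Q.trans hp (Q.trans (Q.rel_of_eq p p' ?_) (Q.symm hp'))
  rw [← Q.π_of_rel hp, ← Q.π_of_rel hp', Category.assoc, Category.assoc, h]

theorem mem_of_π {i : I} {p : P} {z : Q.S i} (h : Q.π p = Q.j i z) : p ∈ Q.O i := by
  obtain ⟨t, h1, h2⟩ := Scheme.Pullback.exists_preimage_pullback (f := Q.π) (g := Q.j i) p z h
  obtain ⟨W, hW, hR⟩ := Q.rel_of_π_eq (x := pullback.fst Q.π (Q.j i))
    (x' := pullback.snd Q.π (Q.j i) ≫ Q.s i) (by rw [Category.assoc, s_π, pullback.condition]) t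
  have := Q.sat (Q.symm hR) i ⟨t, hW⟩ (Q.mem i _)
  rw [← h1]
  exact this

theorem exists_sect (y : Q.Y) :
    ∃ (V : Q.Y.Opens) (s : V.toScheme ⟶ P), y ∈ V ∧ s ≫ Q.π = V.ι := by
  obtain ⟨i, z, rfl⟩ := Q.j_surj y
  refine ⟨(Q.j i).opensRange, (Q.j i).isoOpensRange.inv ≫ Q.s i, ⟨z, rfl⟩, ?_⟩
  rw [Category.assoc, s_π, Scheme.Hom.isoOpensRange_inv_comp]

end Slices

end Pool.Agent.MP_52bf41_ag.H92
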