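import Pool.Agent.MP_52bf41_ag.H92.Defs
import Pool.Agent.MP_52bf41_ag.H92.Quot
import Pool.Agent.MP_52bf41_ag.H92.Ord
import Pool.Agent.MP_52bf41_ag.H92.Len

/-! The mixed quotient: the open set `X × U`, the action on its points and the slices. -/

open AlgebraicGeometry CategoryTheory

namespace Pool.Agent.MP_52bf41_ag.H92

open MvPolynomial
open H1 hiding Fix res
open H12

variable {D N : ℕ}

/-- The coordinate ring of the space of pairs of matrices. -/
abbrev AA (D N : ℕ) : Type := MvPolynomial (Var D N) ℂ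

/-- The coordinates of a point. -/
noncomputable def co {τ R : Type} [CommRing R] (φ : MvPolynomial τ ℂ →+* R) : τ → R := fun v => φ (X v)

theorem hom_ext_co {τ R : Type} [CommRing R] {φ φ' : MvPolynomial τ ℂ →+* R}
    (h1 : φ.comp C = φ'.comp C) (h2 : co φ = co φ') : φ = φ' :=
  MvPolynomial.ringHom_ext (fun c => RingHom.congr_fun h1 c) fun v => congrFun h2 v

theorem co_eval {τ R : Type} [CommRing R] (c : ℂ →+* R) (x : τ → R) : co (eval₂Hom c x) = x :=
  funext fun v => eval₂Hom_X' _ _ v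

theorem eval_C {τ R : Type} [CommRing R] (c : ℂ →+* R) (x : τ → R) :
    (eval₂Hom c x).comp C = c := RingHom.ext fun a => eval₂Hom_C _ _ a

theorem hom_del {R : Type} [CommRing R] (φ : AA D N →+* R) (σ : Fin (D + 1) → Fin N) :
    φ (delX σ ℂ) = del σ (co φ) := del_map φ X

theorem hom_minor {R : Type} [CommRing R] (φ : AA D N →+* R) (σ : Fin (D + 1) → Fin N) :
    φ (minor σ) = (mM σ (co φ)).det := RingHom.map_det φ _

section Moves

variable {T T' : Scheme.{0}} {g g' : Sq D Γ(T, ⊤)} {x x' x'' : T ⟶ Spec (.of (AA D N))}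

theorem moves_iff : Moves g x x' ↔
    Fix g ∧ (pb x').comp C = (pb x).comp C ∧ co (pb x') = act g g⁻¹ (co (pb x)) := by
  refine and_congr_right fun _ => ⟨fun h => ?_, fun h => ?_⟩
  · rw [h]
    exact ⟨eval_C _ _, co_eval _ _⟩
  · exact hom_ext_co (h.1.trans (eval_C _ _).symm) (h.2.trans (co_eval _ _).symm)

theorem moves_of_inP (h : InP g g') (h1 : (pb x').comp C = (pb x).comp C)
    (h2 : co (pb x') = act g g' (co (pb x))) : Moves g x x' :=
  moves_iff.mpr ⟨H53.fix_of_inP h, h1, by rw [H53.inv_eq_of_inP h, h2]⟩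

theorem Moves.inP (h : Moves g x x') : InP g g⁻¹ := H53.inP_of_fix h.1

theorem Moves.const (h : Moves g x x') : (pb x').comp C = (pb x).comp C := (moves_iff.mp h).2.1

theorem Moves.coord (h : Moves g x x') : co (pb x') = act g g⁻¹ (co (pb x)) :=
  (moves_iff.mp h).2.2

theorem Moves.refl (x : T ⟶ Spec (.of (AA D N))) : Moves 1 x x :=
  moves_of_inP InP.one rfl (act_one _).symm

theorem Moves.symm (h : Moves g x x') : Moves g⁻¹ x' x :=
  moves_of_inP h.inP.symm h.const.symm (by rw [h.coord, h.inP.act_act])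

theorem Moves.trans (h : Moves g x x') (h' : Moves g' x' x'') : Moves (g' * g) x x'' :=
  moves_of_inP (h'.inP.mul h.inP) (h'.const.trans h.const)
    (by rw [h'.coord, h.coord, act_act h'.inP.2])

theorem Moves.map (h : Moves g x x') {R : Type} [CommRing R] (ψ : Γ(T, ⊤) →+* R) :
    co (ψ.comp (pb x')) = act (g.map ψ) (g⁻¹.map ψ) (co (ψ.comp (pb x))) :=
  (congrArg (fun z v => ψ (z v)) h.coord).trans (act_map ψ _ _ _)

theorem Moves.comp (h : Moves g x x') (f : T' ⟶ T) :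
    Moves (g.map f.appTop.hom) (f ≫ x) (f ≫ x') := by
  refine moves_of_inP (h.inP.map _) ?_ ?_
  · rw [H53.pb_comp', H53.pb_comp', RingHom.comp_assoc, RingHom.comp_assoc, h.const]
  · rw [H53.pb_comp', H53.pb_comp']
    exact h.map _

theorem exists_moves (x : T ⟶ Spec (.of (AA D N))) (h : Fix g) : ∃ x', Moves g x x' := by
  obtain ⟨x', hx'⟩ := exists_pb (A := AA D N) (eval₂Hom ((pb x).comp C) (act g g⁻¹ (co (pb x))))
  exact ⟨x', h, hx'⟩

theorem tails_iffN {K : Type} [Field K] [IsAlgClosed K] (φ : AA D N →+* K)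
    {p : PrimeSpectrum (AA D N)} (hφ : RingHom.ker φ = p.asIdeal) :
    p ∈ Tails ℂ D N ↔ Eig (pencil (co φ)) := by
  rw [mem_tails_iff, ← hφ, ← MvPolynomial.ker_map, RingHom.mem_ker]
  have h1 : ∀ c : Fin D → K, MvPolynomial.eval c (MvPolynomial.map φ
      (phi ((pencil X).map C) X)) = phi (pencil (co φ)) c := by
    intro c
    rw [phi_map, phi_map, Matrix.map_map, Matrix.map_map]
    congr 1
    · ext i j
      simp [pencil, co]
    · simp
  constructor
  · intro h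
    by_contra h2
    refine h (MvPolynomial.funext fun c => ?_)
    rw [h1, map_zero]
    by_contra h3
    exact h2 (eig_of_phi h3)
  · intro h h0
    obtain ⟨c, hc⟩ := h.exists_phi
    exact hc (by rw [← h1, h0, map_zero])

theorem Moves.sat (h : Moves g x x') (t : T) :
    (x t ∈ Tails ℂ D N → x' t ∈ Tails ℂ D N) ∧
    (∀ σ, delX σ ℂ ∉ (x t).asIdeal → delX σ ℂ ∉ (x' t).asIdeal) ∧
    ∀ σ, minor σ ∉ (x t).asIdeal → minor σ ∉ (x' t).asIdeal := by
  obtain ⟨K, _, _, ψ, hψ⟩ := H53.exists_pt (U := ⊤) (x := t) trivial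
  have hk : ∀ x : T ⟶ Spec (.of (AA D N)), RingHom.ker (ψ.comp (pb x)) = (x t).asIdeal :=
    fun x => Ideal.ext fun F => by rw [RingHom.mem_ker, RingHom.comp_apply, hψ, mem_pt]
  have hg := h.inP.map ψ
  have hd := (Matrix.isUnit_det_of_left_inverse hg.1).ne_zero
  refine ⟨fun ht => ?_, fun σ hσ => ?_, fun σ hσ => ?_⟩
  · have h1 := (tails_iffN _ (hk x)).mp ht
    refine (tails_iffN _ (hk x')).mpr ?_
    rw [h.map, pencil_act]
    exact H53.eig_act hg h1
  · rw [← hk, RingHom.mem_ker, hom_del] at hσ ⊢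
    rw [h.map, del_act hg]
    exact mul_ne_zero hσ hd
  · rw [← hk, RingHom.mem_ker, hom_minor] at hσ ⊢
    rw [h.map, mM_act, Matrix.det_mul]
    exact mul_ne_zero hσ hd

theorem isUnit_pb {B : Type} [CommRing B] (x : T ⟶ Spec (.of B)) {b : B}
    (h : ∀ t, b ∉ (x t).asIdeal) : IsUnit (pb x b) :=
  isUnit_of_basicOpen _ fun t _ => not_not.mp ((mem_pt x t b).not.mp (h t))

end Moves

theorem isOpen_tailsN : IsOpen (Tails ℂ D N) := by
  have h : Tails ℂ D N = ⋃ m, (PrimeSpectrum.basicOpen (coeff m (phi ((pencil X).map C)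
      (X : Fin D → MvPolynomial (Fin D) (AA D N)))) : Set _) := by
    ext p
    rw [mem_tails_iff, MvPolynomial.mem_map_C_iff]
    simp
  rw [h]
  exact isOpen_iUnion fun m => (PrimeSpectrum.basicOpen _).isOpen

/-- The open set `X × U`. -/
noncomputable def OP (D N : ℕ) : (Spec (.of (AA D N))).Opens :=
  ⟨Tails ℂ D N, isOpen_tailsN⟩ ⊓ ⨆ σ, PrimeSpectrum.basicOpen (minor σ)

theorem mem_OP {p : PrimeSpectrum (AA D N)} :
    p ∈ OP D N ↔ p ∈ Tails ℂ D N ∧ ∃ σ, minor σ ∉ p.asIdeal :=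
  and_congr_right fun _ => TopologicalSpace.Opens.mem_iSup

/-- Choices of rows. -/
abbrev II (D N : ℕ) : Type := {σ : Fin (D + 1) → Fin N // Function.Injective σ}

theorem exists_del {p : PrimeSpectrum (AA D N)} {σ : Fin (D + 1) → Fin N}
    (h : minor σ ∉ p.asIdeal) : ∃ σ : II D N, delX σ.1 ℂ ∉ p.asIdeal := by
  obtain ⟨a, ha⟩ : ∃ a, vX ℂ D (σ a) ∉ p.asIdeal := by
    by_contra hc
    push Not at hc
    refine h ?_
    rw [minor, Matrix.det_succ_column_zero]
    exact p.asIdeal.sum_mem fun a _ => p.asIdeal.mul_mem_right _ (p.asIdeal.mul_mem_left _ (hc a))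
  have h1 : mdet ℂ (σ ∘ Equiv.swap 0 a) ∉ p.asIdeal := fun h' => by
    have := mdet_perm (Equiv.swap 0 a) h'
    rw [Function.comp_assoc, ← Equiv.Perm.coe_mul, Equiv.swap_mul_self] at this
    exact h this
  refine ⟨⟨_, injective_of_mdet h1⟩, fun h' => (p.isPrime.mem_or_mem h').elim ?_ h1⟩
  simpa using ha

theorem mem_OP_of_del {p : PrimeSpectrum (AA D N)} {σ : Fin (D + 1) → Fin N}
    (h1 : p ∈ Tails ℂ D N) (h : delX σ ℂ ∉ p.asIdeal) : p ∈ OP D N :=
  mem_OP.mpr ⟨h1, σ, fun h' => h (p.asIdeal.mul_mem_left _ h')⟩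

/-- The coordinate ring of the slice. -/
abbrev BS (σ : II D N) : Type := MvPolynomial (Sl σ.1) ℂ

/-- The inclusion of the slice. -/
noncomputable def slS (σ : II D N) : Spec (.of (BS σ)) ⟶ Spec (.of (AA D N)) :=
  Spec.map (CommRingCat.ofHom (sl ℂ σ.1).toRingHom)

/-- The chart. -/
noncomputable def OW (σ : II D N) : (Spec (.of (AA D N))).Opens :=
  ⟨Tails ℂ D N, isOpen_tailsN⟩ ⊓ PrimeSpectrum.basicOpen (delX σ.1 ℂ)

/-- The slice. -/
noncomputable def SS (σ : II D N) : (Spec (.of (BS σ))).Opens := slS σ ⁻¹ᵁ OW σ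

theorem pb_slS {T : Scheme.{0}} (σ : II D N) (z : T ⟶ Spec (.of (BS σ))) :
    (pb (z ≫ slS σ)).comp C = (pb z).comp C ∧ co (pb (z ≫ slS σ)) = sp σ.1 (co (pb z)) := by
  have h : ∀ F, pb (z ≫ slS σ) F = pb z (sl ℂ σ.1 F) := fun F =>
    pb_spec z (sl ℂ σ.1).toRingHom F
  refine ⟨RingHom.ext fun c => ?_, funext fun v => ?_⟩
  · rw [RingHom.comp_apply, RingHom.comp_apply, h]
    exact congrArg (pb z) ((sl ℂ σ.1).commutes c)
  · have h2 := congrFun (sp_map (σ := σ.1) (pb z) X) v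
    rw [co, h, sl, aeval_X]
    exact h2

theorem exists_s (σ : II D N) : ∃ s : (SS σ).toScheme ⟶ (OP D N).toScheme,
    s ≫ (OP D N).ι = (SS σ).ι ≫ slS σ :=
  Slices.exists_lift _ _ fun z => mem_OP_of_del z.2.1 z.2.2

/-- The slice inside `X × U`. -/
noncomputable def sS (σ : II D N) : (SS σ).toScheme ⟶ (OP D N).toScheme := (exists_s σ).choose

theorem sS_ι (σ : II D N) : sS σ ≫ (OP D N).ι = (SS σ).ι ≫ slS σ := (exists_s σ).choose_spec

/-- The chart inside `X × U`. -/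
noncomputable def OO (σ : II D N) : (OP D N).toScheme.Opens :=
  (OP D N).ι ⁻¹ᵁ PrimeSpectrum.basicOpen (delX σ.1 ℂ)

theorem exists_r {T : Scheme.{0}} (σ : II D N) (x : T ⟶ Spec (.of (AA D N)))
    (hx : ∀ t, x t ∈ OW σ) : ∃ r : T ⟶ (SS σ).toScheme,
      pb (r ≫ (SS σ).ι) = eval₂Hom ((pb x).comp C) (fun y => th σ.1 true (co (pb x)) y.1) ∧
      Moves (mG σ.1 true (co (pb x))) x (r ≫ (SS σ).ι ≫ slS σ) := by
  have hu : IsUnit (del σ.1 (co (pb x))) := hom_del (pb x) σ.1 ▸ isUnit_pb x fun t => (hx t).2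
  obtain ⟨r0, hr0⟩ := exists_pb (A := BS σ)
    (eval₂Hom ((pb x).comp C) (fun y => th σ.1 true (co (pb x)) y.1))
  have hm : Moves (mG σ.1 true (co (pb x))) x (r0 ≫ slS σ) :=
    moves_of_inP (inP_mG hu true) (by rw [(pb_slS σ r0).1, hr0, eval_C])
      (by rw [(pb_slS σ r0).2, hr0, co_eval, sp_th σ.2 hu]; rfl)
  obtain ⟨r, rfl⟩ := Slices.exists_lift (SS σ) r0 fun t =>
    ⟨(hm.sat t).1 (hx t).1, (hm.sat t).2.1 _ (hx t).2⟩
  exact ⟨r, hr0, by simpa only [Category.assoc] using hm⟩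

theorem mem_OW (σ : II D N) (t : (OO σ).toScheme) : ((OO σ).ι ≫ (OP D N).ι) t ∈ OW σ :=
  ⟨t.1.2.1, t.2⟩

/-- The slices. -/
noncomputable def QQ (D N : ℕ) : Slices (OP D N).toScheme (II D N) where
  R x x' := ∃ g, Moves g (x ≫ (OP D N).ι) (x' ≫ (OP D N).ι)
  O := OO
  S σ := (SS σ).toScheme
  s := sS
  r σ := (exists_r σ _ (mem_OW σ)).choose
  refl _ := ⟨_, Moves.refl _⟩
  symm := fun ⟨_, h⟩ => ⟨_, h.symm⟩
  trans := fun ⟨_, h⟩ ⟨_, h'⟩ => ⟨_, h.trans h'⟩
  comp f _ _ := fun ⟨_, h⟩ => ⟨_, by simpa only [Category.assoc] using h.comp f⟩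
  cover p := by
    obtain ⟨σ, hσ⟩ := (mem_OP.mp p.2).2
    exact exists_del hσ
  sat := fun ⟨_, h⟩ σ t ht => (h.sat t).2.1 _ ht
  mem σ z := by
    change delX σ.1 ℂ ∉ ((sS σ ≫ (OP D N).ι) z).asIdeal
    rw [sS_ι]
    exact z.2.2
  rs σ := ⟨_, by
    rw [Category.assoc, sS_ι]
    exact (exists_r σ _ (mem_OW σ)).choose_spec.2⟩
  uniq σ p p' := fun ⟨g, h⟩ => by
    rw [Category.assoc, Category.assoc, sS_ι, ← Category.assoc, ← Category.assoc] at h
    have h1 := h.const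
    have h2 := h.coord
    rw [(pb_slS σ _).1, (pb_slS σ _).1] at h1
    rw [(pb_slS σ _).2, (pb_slS σ _).2] at h2
    have hu : IsUnit (del σ.1 (sp σ.1 (co (pb (p ≫ (SS σ).ι))))) := by
      rw [← (pb_slS σ _).2, ← hom_del]
      exact isUnit_pb _ fun t => (p t).2.2
    rw [← cancel_mono (SS σ).ι]
    exact hom_ext_pb (hom_ext_co h1.symm (sp_uniq σ.2 hu h.inP h2).symm)

section Torsor

variable {T : Scheme.{0}}

theorem eq_of_ι {a b : Γ(T, ⊤)} (h : ∀ t : T, ∃ W : T.Opens, t ∈ W ∧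
    W.ι.appTop.hom a = W.ι.appTop.hom b) : a = b := by
  refine eq_of_local fun t _ => ?_
  obtain ⟨W, hW, e⟩ := h t
  refine ⟨W, le_top, hW, W.topIso.symm.commRingCatIsoToRingEquiv.injective ?_⟩
  have : ∀ c : Γ(T, ⊤), W.topIso.inv.hom (res le_top c) = W.ι.appTop.hom c := fun c => by
    have key : ∀ {U V V' : T.Opens} (f : V ⟶ U) (g : V' ⟶ V) (k : V' ⟶ U) (c : Γ(T, U)),
        (T.presheaf.map g.op).hom ((T.presheaf.map f.op).hom c) = (T.presheaf.map k.op).hom c := by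
      intro U V V' f g k c
      rw [← CommRingCat.comp_apply, ← Functor.map_comp]
      rfl
    rw [res, Scheme.Opens.topIso_inv, Scheme.Opens.ι_appTop]
    exact key _ _ _ c
  exact (this a).trans (e.trans (this b).symm)

theorem moves_unique {x : T ⟶ (OP D N).toScheme} {x' : T ⟶ Spec (.of (AA D N))}
    {g g' : Sq D Γ(T, ⊤)} (h : Moves g (x ≫ (OP D N).ι) x') (h' : Moves g' (x ≫ (OP D N).ι) x') :
    g = g' := by
  ext a b
  refine eq_of_ι fun t => ?_
  obtain ⟨σ, hσ⟩ := (mem_OP.mp (x t).2).2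
  let W : T.Opens := (x ≫ (OP D N).ι) ⁻¹ᵁ PrimeSpectrum.basicOpen (minor σ)
  have h1 := h.comp W.ι
  have h2 := h'.comp W.ι
  have hu : IsUnit (mM σ (co (pb (W.ι ≫ x ≫ (OP D N).ι)))).det :=
    hom_minor (pb (W.ι ≫ x ≫ (OP D N).ι)) σ ▸ isUnit_pb _ fun t => t.2
  exact ⟨W, hσ, congrFun (congrFun
    (free_of_unit hu h1.inP h2.inP (h1.coord.symm.trans h2.coord)) a) b⟩

theorem exists_glue_ι (W : T → T.Opens) (hW : ∀ t, t ∈ W t) (b : ∀ t, Γ((W t).toScheme, ⊤))
    (h : ∀ t t', (T.homOfLE (inf_le_left : W t ⊓ W t' ≤ _)).appTop.hom (b t) =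
      (T.homOfLE (inf_le_right : W t ⊓ W t' ≤ _)).appTop.hom (b t')) :
    ∃ c : Γ(T, ⊤), ∀ t, (W t).ι.appTop.hom c = b t := by
  let f : ∀ t, (W t).toScheme ⟶ Spec (.of (Polynomial ℤ)) := fun t =>
    (exists_pb (Polynomial.eval₂RingHom (Int.castRingHom _) (b t))).choose
  have hf : ∀ t, pb (f t) Polynomial.X = b t := fun t => by
    rw [(exists_pb (Polynomial.eval₂RingHom (Int.castRingHom _) (b t))).choose_spec]
    simp
  let 𝒰 := T.openCoverOfIsOpenCover W (top_le_iff.mp fun t _ =>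
    TopologicalSpace.Opens.mem_iSup.mpr ⟨t, hW t⟩)
  have hc : ∀ t t', Limits.pullback.fst (W t).ι (W t').ι ≫ f t =
      Limits.pullback.snd (W t).ι (W t').ι ≫ f t' := by
    intro t t'
    rw [← cancel_epi (isPullback_opens_inf (W t) (W t')).isoPullback.hom,
      IsPullback.isoPullback_hom_fst_assoc, IsPullback.isoPullback_hom_snd_assoc]
    refine hom_ext_pb (Polynomial.ringHom_ext' (RingHom.ext_int _ _) ?_)
    rw [pb_comp, pb_comp, hf, hf]
    exact h t t'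
  refine ⟨pb (Scheme.Cover.glueMorphisms 𝒰 f hc) Polynomial.X, fun t => ?_⟩
  rw [← pb_comp, ← hf]
  exact congrArg (pb · Polynomial.X) (Scheme.Cover.ι_glueMorphisms 𝒰 f hc t)

theorem moves_of_local {x x' : T ⟶ (OP D N).toScheme}
    (h : ∀ t : T, ∃ W : T.Opens, t ∈ W ∧ (QQ D N).R (W.ι ≫ x) (W.ι ≫ x')) : (QQ D N).R x x' := by
  choose W hW g hg using h
  have hc : ∀ t t', (g t).map (T.homOfLE (inf_le_left : W t ⊓ W t' ≤ _)).appTop.hom =
      (g t').map (T.homOfLE (inf_le_right : W t ⊓ W t' ≤ _)).appTop.hom := fun t t' => by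
    have h1 := (hg t).comp (T.homOfLE (inf_le_left : W t ⊓ W t' ≤ _))
    have h2 := (hg t').comp (T.homOfLE (inf_le_right : W t ⊓ W t' ≤ _))
    simp only [Category.assoc, Scheme.homOfLE_ι_assoc] at h1 h2
    rw [← Category.assoc] at h1 h2
    exact moves_unique h1 h2
  choose g0 hg0 using fun a b => exists_glue_ι W hW (fun t => g t a b)
    fun t t' => congrFun (congrFun (hc t t') a) b
  have hm : ∀ t, (Matrix.of g0).map (W t).ι.appTop.hom = g t := fun t => by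
    ext a b
    exact hg0 a b t
  have hf : Fix (Matrix.of g0) := by
    refine ⟨isUnit_of_basicOpen _ fun t _ => ?_, fun a => eq_of_ι fun t => ⟨W t, hW t, ?_⟩⟩
    · have h1 := (hg t).1.1
      rw [← hm, ← RingHom.mapMatrix_apply, ← RingHom.map_det] at h1
      have h2 := basicOpen_of_isUnit h1
      rw [← Scheme.preimage_basicOpen_top] at h2
      exact h2.ge (Set.mem_univ (⟨t, hW t⟩ : W t))
    · rw [show (W t).ι.appTop.hom (Matrix.of g0 a 0) = g t a 0 from hg0 a 0 t, (hg t).1.2,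
        Matrix.one_apply, Matrix.one_apply]
      split_ifs <;> simp
  obtain ⟨x1, h1⟩ := exists_moves (x ≫ (OP D N).ι) hf
  refine ⟨_, (hom_ext_pb (RingHom.ext fun F => eq_of_ι fun t => ⟨W t, hW t, ?_⟩) : x1 = _) ▸ h1⟩
  have h2 := h1.comp (W t).ι
  rw [hm] at h2
  have h3 := (hg t).2
  rw [Category.assoc, Category.assoc, ← h2.2] at h3
  rw [← pb_comp, ← pb_comp, h3]

theorem ht_of_minor {d : ℕ} (hN : (d + 1) * (D + 1) ≤ N) (p : PrimeSpectrum (AA D N))
    (hp : ∀ σ, minor σ ∈ p.asIdeal) : d < p.asIdeal.height := by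
  have hN1 : (d + 1) * D + (d + 1) ≤ N := hN
  refine lt_of_lt_of_le (b := ((d + 1 : ℕ) : ℕ∞)) (by exact_mod_cast d.lt_succ_self) ?_
  by_cases h : ∀ r, vX ℂ D r ∈ p.asIdeal
  · exact le_trans (by exact_mod_cast (by omega : d + 1 ≤ N)) (ht_of_col _ h)
  · obtain ⟨r, hr⟩ := not_forall.mp h
    exact ht_of_minors (by omega) _ r hr fun σ _ => hp σ

theorem mixed {X : Scheme.{0}} {ι : X ⟶ Spec (.of (MvPolynomial (Var D 0) ℂ))} {d : ℕ}
    (hι : ∀ p : PrimeSpectrum (AA D N), PrimeSpectrum.comap (rename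
      (Prod.map (Sum.map id Fin.elim0) id)).toRingHom p ∈ Set.range ι ↔ p ∈ Tails ℂ D N)
    (hN : (d + 1) * (D + 1) ≤ N) : Mixed ι (OP D N).ι (QQ D N).π d where
  isOpen := inferInstance
  range p := by
    rw [Scheme.Opens.range_ι, hι]
    exact mem_OP
  codim := ht_of_minor hN
  move x g hg := by
    obtain ⟨x1, h1⟩ := exists_moves (x ≫ (OP D N).ι) hg
    obtain ⟨x', rfl⟩ := Slices.exists_lift (OP D N) x1 fun t => by
      obtain ⟨h2, σ, h3⟩ := mem_OP.mp (x t).2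
      exact mem_OP.mpr ⟨(h1.sat t).1 h2, σ, (h1.sat t).2.2 σ h3⟩
    exact ⟨x', h1, (QQ D N).π_eq_of_rel ⟨g, h1⟩⟩
  fibre x x' h := by
    obtain ⟨g, hg⟩ := moves_of_local ((QQ D N).rel_of_π_eq h)
    exact ⟨g, hg, fun g' hg' => moves_unique hg' hg⟩
  sect := (QQ D N).exists_sect

end Torsor

end Pool.Agent.MP_52bf41_ag.H92
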