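import Pool.Agent.MP_52bf41_ag.H92.Geo

/-! Points of the mixed quotient are the invariant primes. -/

open AlgebraicGeometry CategoryTheory Order

namespace Pool.Agent.MP_52bf41_ag.H92

open MvPolynomial IsLocalRing
open H1 hiding Fix res
open H12

variable {D N : ℕ}

/-- The image in the quotient of a prime. -/
noncomputable def pt (p : PrimeSpectrum (AA D N)) (hp : p ∈ OP D N) : (QQ D N).Y :=
  (QQ D N).π ⟨p, hp⟩

/-- The chart of the quotient. -/
noncomputable def jj (σ : II D N) : (SS σ).toScheme ⟶ (QQ D N).Y := (QQ D N).j σ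

instance (σ : II D N) : IsOpenImmersion (jj σ) := inferInstanceAs (IsOpenImmersion ((QQ D N).j σ))

/-- Functions on the slice as functions on the chart of the quotient. -/
noncomputable abbrev bb (σ : II D N) : BS σ →+* Γ((QQ D N).Y, (jj σ).opensRange) :=
  beta (jj σ) (SS σ).ι

section Val

variable (p : PrimeSpectrum (AA D N)) (hp : p ∈ OP D N)

theorem spec_pt (t : Spec (.of p.asIdeal.ResidueField)) :
    Spec.map (CommRingCat.ofHom (algebraMap (AA D N) p.asIdeal.ResidueField)) t = p := by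
  refine PrimeSpectrum.ext ?_
  change Ideal.comap (algebraMap (AA D N) p.asIdeal.ResidueField) t.asIdeal = _
  rw [Ideal.eq_bot_of_prime t.asIdeal, ← RingHom.ker_eq_comap_bot,
    Ideal.ker_algebraMap_residueField]

include hp in
theorem exists_ee : ∃ e : Spec (.of p.asIdeal.ResidueField) ⟶ (OP D N).toScheme,
    e ≫ (OP D N).ι = Spec.map (CommRingCat.ofHom (algebraMap (AA D N) p.asIdeal.ResidueField)) :=
  Slices.exists_lift _ _ fun t => (spec_pt p t).symm ▸ hp

/-- The generic point of `V(p)` with values in its residue field. -/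
noncomputable def ee : Spec (.of p.asIdeal.ResidueField) ⟶ (OP D N).toScheme :=
  (exists_ee p hp).choose

theorem ee_ι : ee p hp ≫ (OP D N).ι =
    Spec.map (CommRingCat.ofHom (algebraMap (AA D N) p.asIdeal.ResidueField)) :=
  (exists_ee p hp).choose_spec

theorem ee_pt (t : Spec (.of p.asIdeal.ResidueField)) : (ee p hp ≫ (QQ D N).π) t = pt p hp := by
  have : ee p hp t = ⟨p, hp⟩ := Subtype.ext (by
    have h := spec_pt p t
    rw [← ee_ι p hp] at h
    exact h)
  rw [Scheme.Hom.comp_apply, this, pt]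

/-- The value of a function on the quotient at the generic point of `V(p)`. -/
noncomputable def val {V : (QQ D N).Y.Opens} (h : pt p hp ∈ V) :
    Γ((QQ D N).Y, V) →+* p.asIdeal.ResidueField :=
  ev (ee p hp ≫ (QQ D N).π) (top_le_preimage _ ((ee_pt p hp _).symm ▸ h))

theorem val_res {V V' : (QQ D N).Y.Opens} (h : pt p hp ∈ V) (h' : V ≤ V')
    (b : Γ((QQ D N).Y, V')) : val p hp h (res h' b) = val p hp (h' h) b := ev_res _ _ _ _

theorem val_eq_zero {V : (QQ D N).Y.Opens} (h : pt p hp ∈ V) (b : Γ((QQ D N).Y, V)) :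
    val p hp h b = 0 ↔ pt p hp ∉ (QQ D N).Y.basicOpen b := by
  rw [← ee_pt p hp (closedPoint _), ← isUnit_ev_iff, isUnit_iff_ne_zero, not_not]
  rfl

variable {σ : II D N}

theorem exists_u (hσ : delX σ.1 ℂ ∉ p.asIdeal) :
    ∃ r : Spec (.of p.asIdeal.ResidueField) ⟶ (SS σ).toScheme,
      ee p hp ≫ (QQ D N).π = r ≫ jj σ ∧
      ∀ b, pb (r ≫ (SS σ).ι) b = pb (𝟙 _) (rho σ.1 p.asIdeal b) := by
  obtain ⟨r, h1, h2⟩ := exists_r σ (ee p hp ≫ (OP D N).ι) fun t => by
    rw [ee_ι, spec_pt]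
    exact ⟨hp.1, hσ⟩
  rw [← sS_ι, ← Category.assoc r] at h2
  refine ⟨r, (QQ D N).π_of_rel (i := σ) ⟨_, h2⟩, fun b => ?_⟩
  · have h3 : pb (ee p hp ≫ (OP D N).ι) =
        (pb (𝟙 _)).comp (algebraMap (AA D N) p.asIdeal.ResidueField) := by
      rw [ee_ι, ← Category.id_comp (Spec.map _)]
      exact RingHom.ext (pb_spec _ _)
    rw [h1, h3]
    refine RingHom.congr_fun (hom_ext_co (φ' := (pb (𝟙 _)).comp
      (rho σ.1 p.asIdeal).toRingHom) ?_ ?_) b
    · rw [eval_C]
      refine RingHom.ext fun c => congrArg (pb (𝟙 _)) ?_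
      exact ((rho σ.1 p.asIdeal).commutes c).symm
    · rw [co_eval]
      funext y
      have h4 := congrFun (th_map (pb (𝟙 (Spec (.of p.asIdeal.ResidueField)))) (unit_gen hσ) true)
        y.1
      refine h4.symm.trans (congrArg (pb (𝟙 _)) ?_)
      exact (aeval_X (R := ℂ) (fun y : Sl σ.1 => th σ.1 true (gen p.asIdeal) y) y).symm

theorem val_bb (hσ : delX σ.1 ℂ ∉ p.asIdeal) (h : pt p hp ∈ (jj σ).opensRange) (b : BS σ) :
    val p hp h (bb σ b) = rho σ.1 p.asIdeal b := by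
  obtain ⟨r, h1, h2⟩ := exists_u p hp hσ
  apply pb_id_bijective.1
  rw [val, pb_ev, pl_congr h1, ← pl_pl (jj σ) r (top_le_range _) le_top, pl_beta, pl_top,
    ← pb_comp, h2]

theorem del_of_eq {u : (SS σ).toScheme} (h : jj σ u = pt p hp) : delX σ.1 ℂ ∉ p.asIdeal :=
  (QQ D N).mem_of_π (i := σ) h.symm

theorem mem_range (hσ : delX σ.1 ℂ ∉ p.asIdeal) : pt p hp ∈ (jj σ).opensRange := by
  obtain ⟨r, h1, -⟩ := exists_u p hp hσ
  rw [← ee_pt p hp (closedPoint _), h1]
  exact ⟨r _, rfl⟩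

theorem res_of_eq {u : (SS σ).toScheme} (h : jj σ u = pt p hp) :
    (SS σ).ι u = ⟨H1.res σ.1 p, inferInstance⟩ := by
  refine PrimeSpectrum.ext (Ideal.ext fun b => ?_)
  rw [mem_res, ← val_bb p hp (del_of_eq p hp h) ⟨u, h⟩, val_eq_zero, ← h, mem_beta, not_not]

end Val

variable {p q : PrimeSpectrum (AA D N)} (hp : p ∈ OP D N) (hq : q ∈ OP D N)

theorem exists_chart : ∃ (σ : II D N) (u : (SS σ).toScheme), jj σ u = pt p hp := by
  obtain ⟨σ, hσ⟩ := (mem_OP.mp hp).2
  obtain ⟨τ, hτ⟩ := exists_del hσ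
  exact ⟨τ, mem_range p hp hτ⟩

theorem coheight_pt (h : H1.Inv p.asIdeal) : coheight (pt p hp) = p.asIdeal.height := by
  obtain ⟨σ, u, hu⟩ := exists_chart hp
  rw [← hu, coheight_eq_of_isOpenImmersion, ← coheight_eq_of_isOpenImmersion (SS σ).ι,
    ← idealHeight_eq_coheight, res_of_eq p hp hu]
  exact ht_res' h (del_of_eq p hp hu)

theorem le_of_pt (h : H1.Inv p.asIdeal) (h' : H1.Inv q.asIdeal) (e : pt q hq ⤳ pt p hp) :
    q.asIdeal ≤ p.asIdeal := by
  obtain ⟨σ, u, hu⟩ := exists_chart hp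
  obtain ⟨v, hv⟩ : pt q hq ∈ (jj σ).opensRange := e.mem_open (jj σ).opensRange.2 ⟨u, hu⟩
  rw [← hu, ← hv, (jj σ).isOpenEmbedding.specializes_iff] at e
  have e' := e.map (SS σ).ι.continuous
  rw [res_of_eq p hp hu, res_of_eq q hq hv] at e'
  exact le_of_res_le h h' (del_of_eq p hp hu) (del_of_eq q hq hv)
    ((PrimeSpectrum.le_iff_specializes _ _).mpr e')

theorem pt_spec (h : q.asIdeal ≤ p.asIdeal) : pt q hq ⤳ pt p hp := by
  refine Specializes.map ?_ (QQ D N).π.continuous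
  exact (OP D N).ι.isOpenEmbedding.specializes_iff.mp ((PrimeSpectrum.le_iff_specializes q p).mp h)

theorem pt_inj (h : H1.Inv p.asIdeal) (h' : H1.Inv q.asIdeal) (e : pt p hp = pt q hq) : p = q :=
  PrimeSpectrum.ext (le_antisymm (le_of_pt hq hp h' h (specializes_of_eq e))
    (le_of_pt hp hq h h' (specializes_of_eq e.symm)))

theorem pt_surj (y : (QQ D N).Y) : ∃ p hp, H1.Inv p.asIdeal ∧ pt p hp = y := by
  obtain ⟨σ, u, rfl⟩ := (QQ D N).j_surj y
  have h : sl ℂ σ.1 (delX σ.1 ℂ) ∉ ((SS σ).ι u).asIdeal := u.2.2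
  have h1 : up ((SS σ).ι u).asIdeal ∈ OP D N :=
    mem_OP_of_del (tails_of_le (up_le h σ.2) u.2.1) (del_notMem_up h)
  refine ⟨_, h1, inv_up h, ?_⟩
  obtain ⟨v, hv⟩ := mem_range _ h1 (del_notMem_up h)
  rw [← hv]
  congr 1
  refine (SS σ).ι.isOpenEmbedding.injective ?_
  rw [res_of_eq _ h1 hv]
  exact PrimeSpectrum.ext (res_up h)

instance : IsLocallyNoetherian (QQ D N).Y :=
  (isLocallyNoetherian_iff_openCover (QQ D N).gd.openCover).mpr fun σ =>
    inferInstanceAs (IsLocallyNoetherian (SS σ).toScheme)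

end Pool.Agent.MP_52bf41_ag.H92
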