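import Pool.Agent.MP_52bf41_ag.H1.Upper

/-! Slices for the action on pairs of matrices: the algebra. -/

namespace Pool.Agent.MP_52bf41_ag.H92

open MvPolynomial H1

variable {D N : ℕ} {σ : Fin (D + 1) → Fin N}

section Ring

variable {R R' : Type*} [CommRing R] [CommRing R']

open Classical in
/-- The point of the slice with given coordinates. -/
noncomputable def sp (σ : Fin (D + 1) → Fin N) (z : Sl σ → R) : Var D N → R := fun y =>
  if h : y ∈ Sl σ then z ⟨y, h⟩ else if y.1 = Sum.inr (σ y.2) then 1 else 0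

theorem sp_mem (z : Sl σ → R) (y : Sl σ) : sp σ z y.1 = z y := dif_pos y.2

theorem sp_map (φ : R →+* R') (z : Sl σ → R) :
    (fun y => φ (sp σ z y)) = sp σ fun y => φ (z y) := by
  funext y
  unfold sp
  split_ifs <;> simp

theorem sp_row (hσ : Function.Injective σ) (z : Sl σ → R) (a : Fin (D + 1)) {b : Fin (D + 1)}
    (hb : b ≠ 0) : sp σ z (Sum.inr (σ a), b) = (1 : Sq D R) a b := by
  have h : ((Sum.inr (σ a), b) : Var D N) ∉ Sl σ := fun h => h.elim (fun h => h ⟨a, rfl⟩) hb
  rw [sp, dif_neg h, Matrix.one_apply]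
  simp only [Sum.inr.injEq, hσ.eq_iff]

theorem mM_sp (hσ : Function.Injective σ) (z : Sl σ → R) : mM σ (sp σ z) = mN σ (sp σ z) := by
  ext a b
  by_cases hb : b = 0
  · subst hb
    simp [mM, mN, sections]
  · rw [mN, Matrix.updateCol_ne hb, ← sp_row hσ z a hb]
    rfl

theorem mG_sp (hσ : Function.Injective σ) {z : Sl σ → R} (h : IsUnit (del σ (sp σ z))) (b : Bool) :
    mG σ b (sp σ z) = 1 := by
  cases b
  · simp only [mG, cond_false, mM_sp hσ]
    exact Matrix.nonsing_inv_mul _ (unit_mN h)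
  · simp only [mG, cond_true, mM_sp hσ]
    exact Matrix.nonsing_inv_mul _ (unit_mN h)

theorem th_sp (hσ : Function.Injective σ) {z : Sl σ → R} (h : IsUnit (del σ (sp σ z))) (b : Bool) :
    th σ b (sp σ z) = sp σ z := by
  funext y
  by_cases hy : Fix σ y
  · exact th_fix _ _ hy
  · rw [th_not_fix _ _ hy, mG_sp hσ h, mG_sp hσ h, act_one]

theorem sp_th (hσ : Function.Injective σ) {x : Var D N → R} (hx : IsUnit (del σ x)) :
    (sp σ fun y => th σ true x y) = act (mG σ true x) (mG σ false x) x := by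
  funext y
  by_cases hf : Fix σ y
  · obtain ⟨r, b⟩ := y
    obtain ⟨a, rfl⟩ : ∃ a, r = Sum.inr (σ a) := hf
    rw [nf_fix hx]
    by_cases hb : b = 0
    · subst hb
      rw [sp_mem _ ⟨(Sum.inr (σ a), 0), Or.inr rfl⟩, th_fix _ _ ⟨a, rfl⟩]
      simp [mN]
    · rw [sp_row hσ _ a hb, mN, Matrix.updateCol_ne hb]
  · rw [sp_mem _ ⟨y, Or.inl hf⟩, th_not_fix _ _ hf]
    rfl

theorem sp_uniq (hσ : Function.Injective σ) {z z' : Sl σ → R} (h : IsUnit (del σ (sp σ z)))
    {g g' : Sq D R} (hg : InP g g') (e : sp σ z' = act g g' (sp σ z)) : z' = z := by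
  funext y
  have h1 := th_act hg h y.2
  rw [← e, th_sp hσ h, th_sp hσ (e ▸ unit_act hg h), sp_mem, sp_mem] at h1
  exact h1

theorem free_of_unit {x : Var D N → R} (hx : IsUnit (mM σ x).det) {g g' h h' : Sq D R}
    (hg : InP g g') (hh : InP h h') (e : act g g' x = act h h' x) : g = h := by
  have h1 := congrArg (mM σ) e
  rw [mM_act, mM_act] at h1
  have h2 : g' = h' := by
    have := congrArg ((mM σ x)⁻¹ * ·) h1
    simpa only [← mul_assoc, Matrix.nonsing_inv_mul _ hx, one_mul] using this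
  rw [← mul_one g, ← hh.mul_eq', ← mul_assoc, ← h2, hg.1, one_mul]

end Ring

variable {k : Type*} [Field k]

/-- Restriction of functions to the slice. -/
noncomputable def sl (k : Type*) [Field k] (σ : Fin (D + 1) → Fin N) :
    MvPolynomial (Var D N) k →ₐ[k] MvPolynomial (Sl σ) k := aeval (sp σ X)

theorem aeval_sl {R : Type*} [CommRing R] [Algebra k R] (z : Sl σ → R)
    (F : MvPolynomial (Var D N) k) : aeval z (sl k σ F) = aeval (sp σ z) F := by
  have h := hom_aeval (k := k) (aeval z : MvPolynomial (Sl σ) k →ₐ[k] R).toRingHom (by simp)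
    (sp σ X) F
  refine h.trans ?_
  rw [sp_map]
  simp

theorem aeval_emb {R : Type*} [CommRing R] [Algebra k R] (x : Var D N → R)
    (b : MvPolynomial (Sl σ) k) : aeval x (emb (slE k σ) b) = aeval (fun y : Sl σ => x y) b := by
  rw [emb_slE, aeval_rename]
  rfl

theorem sl_emb (b : MvPolynomial (Sl σ) k) : sl k σ (emb (slE k σ) b) = b := by
  rw [sl, aeval_emb]
  simp only [sp_mem, aeval_X_left_apply]

theorem sl_mem_of_ext {q : Ideal (MvPolynomial (Sl σ) k)} {F : MvPolynomial (Var D N) k}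
    (h : F ∈ ext (slE k σ) q) : sl k σ F ∈ q := by
  rw [ext_eq_map] at h
  refine (Ideal.map_le_iff_le_comap (K := q.comap (sl k σ).toRingHom)).mpr (fun b hb => ?_) h
  change sl k σ (emb (slE k σ) b) ∈ q
  rwa [sl_emb]

/-- The value at the generic point of `q` of a function on the slice. -/
noncomputable def rho (σ : Fin (D + 1) → Fin N) (q : Ideal (MvPolynomial (Var D N) k))
    [q.IsPrime] : MvPolynomial (Sl σ) k →ₐ[k] q.ResidueField :=
  aeval fun y : Sl σ => th σ true (gen q) y

theorem mem_res {q : PrimeSpectrum (MvPolynomial (Var D N) k)} {b : MvPolynomial (Sl σ) k} :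
    b ∈ res σ q ↔ rho σ q.asIdeal b = 0 := by
  rw [Ideal.mem_comap, mem_tw, aeval_emb]
  rfl

/-- The invariant prime over a prime of the slice. -/
noncomputable def up (q : Ideal (MvPolynomial (Sl σ) k)) [q.IsPrime] :
    PrimeSpectrum (MvPolynomial (Var D N) k) := ⟨tw σ false (ext (slE k σ) q), inferInstance⟩

section Up

variable {q : Ideal (MvPolynomial (Sl σ) k)} [q.IsPrime] (h : sl k σ (delX σ k) ∉ q)
include h

theorem del_notMem_ext : delX σ k ∉ ext (slE k σ) q := fun h' => h (sl_mem_of_ext h')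

theorem inv_up : H1.Inv (up q).asIdeal := inv_tw_ext _ emb_supported q (del_notMem_ext h)

theorem del_notMem_up : delX σ k ∉ (up q).asIdeal := del_notMem_tw (del_notMem_ext h) false

theorem res_up : res σ (up q) = q := by
  have := tw_tw (del_notMem_ext h) false
  simp only [Bool.not_false] at this
  change (tw σ true (tw σ false (ext (slE k σ) q))).comap _ = q
  rw [this, comap_ext]

theorem up_le (hσ : Function.Injective σ) : (up q).asIdeal ≤ q.comap (sl k σ).toRingHom := by
  intro F hF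
  have hu : IsUnit (del σ (sp σ (gen q))) := by
    rw [← aeval_delX (k := k), ← aeval_sl]
    exact Ne.isUnit fun h' => h ((aeval_gen q _).mp h')
  have := th_mono (unit_gen (del_notMem_ext h)) hu (fun F hF => by
    rw [← aeval_sl, aeval_gen]
    exact sl_mem_of_ext ((aeval_gen _ F).mp hF)) false F hF
  rw [th_sp hσ hu, ← aeval_sl, aeval_gen] at this
  exact this

end Up

section Inv

variable [Infinite k] {p q : PrimeSpectrum (MvPolynomial (Var D N) k)}

theorem ext_res' (hp : H1.Inv p.asIdeal) (h : delX σ k ∉ p.asIdeal) :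
    ext (slE k σ) (res σ p) = tw σ true p.asIdeal :=
  (tw_eq_ext _ (fun y hy => ⟨_, spl_X _ ⟨y, hy⟩⟩) hp h).symm

theorem up_res (hp : H1.Inv p.asIdeal) (h : delX σ k ∉ p.asIdeal) : up (res σ p) = p :=
  PrimeSpectrum.ext ((tw_congr (ext_res' hp h) _).trans (tw_tw h true))

theorem ht_res' (hp : H1.Inv p.asIdeal) (h : delX σ k ∉ p.asIdeal) :
    (res σ p).height = p.asIdeal.height := by
  rw [← ht_ext (slE k σ), ext_res' hp h, ht_tw h]

theorem le_of_res_le (hp : H1.Inv p.asIdeal) (hq : H1.Inv q.asIdeal) (h : delX σ k ∉ p.asIdeal)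
    (h' : delX σ k ∉ q.asIdeal) (hle : res σ q ≤ res σ p) : q.asIdeal ≤ p.asIdeal := by
  have h1 : tw σ true q.asIdeal ≤ tw σ true p.asIdeal := by
    rw [← ext_res' hp h, ← ext_res' hq h', ext_eq_map, ext_eq_map]
    exact Ideal.map_mono hle
  have h2 := tw_mono h1 (del_notMem_tw h true) (!true)
  rwa [tw_tw h, tw_tw h'] at h2

end Inv

end Pool.Agent.MP_52bf41_ag.H92
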