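import Pool.Agent.MP_52bf41_ag.H92.Cmp

/-! The mixed quotient is unique up to isomorphism. -/

open AlgebraicGeometry CategoryTheory Order

namespace Pool.Agent.MP_52bf41_ag.H92

open H1 H12

section Iso

variable {Y Y' : Scheme.{0}} {d : ℕ}

theorem IsDivisor.map (φ : Y ⟶ Y') [IsIso φ] (E : Cod Y d ≃ Cod Y' d) (hE : ∀ y, (E y).1 = φ y.1)
    {c : Cod Y d →₀ ℚ} (h : IsDivisor Y d c) : IsDivisor Y' d (Finsupp.equivMapDomain E c) := by
  obtain ⟨W, _, _, i, f, _, h1, h2, h3⟩ := h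
  refine ⟨W, ‹_›, ‹_›, i ≫ φ, f, inferInstance, ?_, h2, fun y => ?_⟩
  · rw [Scheme.Hom.comp_apply, coheight_eq_of_isOpenImmersion, h1]
  · obtain ⟨y, rfl⟩ := E.surjective y
    rw [Finsupp.equivMapDomain_apply, Equiv.symm_apply_apply, hE]
    refine ⟨fun w hw => (h3 y).1 w (φ.isOpenEmbedding.injective hw), fun hw => (h3 y).2 ?_⟩
    rintro ⟨w, e⟩
    exact hw ⟨w, congrArg φ e⟩

theorem rank_of_iso (φ : Y ⟶ Y') [IsIso φ] : Module.rank ℚ (CH Y d) = Module.rank ℚ (CH Y' d) := by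
  let E : Cod Y d ≃ Cod Y' d := (Scheme.homeoOfIso (asIso φ)).toEquiv.subtypeEquiv fun y => by
    rw [← coheight_eq_of_isOpenImmersion φ]
    rfl
  have hE : ∀ y, (E y).1 = φ y.1 := fun _ => rfl
  have hE' : ∀ y, (E.symm y).1 = inv φ y.1 := fun y => by
    obtain ⟨y, rfl⟩ := E.surjective y
    rw [Equiv.symm_apply_apply, hE, ← Scheme.Hom.comp_apply, IsIso.hom_inv_id]
    rfl
  refine (Submodule.Quotient.equiv _ _ (Finsupp.domLCongr E) ?_).rank_eq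
  rw [Submodule.map_span]
  congr 1
  ext c
  obtain ⟨x, rfl⟩ := (Finsupp.domLCongr (R := ℚ) (M := ℚ) E).surjective c
  refine (Finsupp.domLCongr (R := ℚ) (M := ℚ) E).injective.mem_set_image.trans
    ⟨IsDivisor.map φ E hE, fun h => ?_⟩
  have := IsDivisor.map (inv φ) E.symm hE' h
  rwa [show Finsupp.equivMapDomain E.symm (Finsupp.domLCongr (R := ℚ) E x) = x from
    (Finsupp.domLCongr (R := ℚ) (M := ℚ) E).symm_apply_apply x] at this

end Iso

variable {D N d : ℕ} {X P Y P' Y' : Scheme.{0}} {ι : X ⟶ Spec (.of (MvPolynomial (Var D 0) ℂ))}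
  {j : P ⟶ Spec (.of (MvPolynomial (Var D N) ℂ))} {π : P ⟶ Y}
  {j' : P' ⟶ Spec (.of (MvPolynomial (Var D N) ℂ))} {π' : P' ⟶ Y'}

theorem Mixed.epi (h : Mixed ι j π d) {Z : Scheme.{0}} {a b : Y ⟶ Z} (e : π ≫ a = π ≫ b) :
    a = b := by
  choose V s hV hs using h.sect
  refine Scheme.Cover.hom_ext (Y.openCoverOfIsOpenCover V (top_le_iff.mp fun y _ =>
    TopologicalSpace.Opens.mem_iSup.mpr ⟨y, hV y⟩)) _ _ fun y => ?_
  change (V y).ι ≫ a = (V y).ι ≫ b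
  rw [← hs, Category.assoc, Category.assoc, e]

theorem Mixed.exists_hom (h : Mixed ι j π d) (h' : Mixed ι j' π' d) :
    ∃ (e : P ⟶ P') (φ : Y ⟶ Y'), e ≫ j' = j ∧ π ≫ φ = e ≫ π' := by
  have := h'.isOpen
  obtain ⟨e, he⟩ : ∃ e : P ⟶ P', e ≫ j' = j :=
    ⟨IsOpenImmersion.lift j' j fun p hp => (h'.range p).mpr ((h.range p).mp hp),
      IsOpenImmersion.lift_fac _ _ _⟩
  have key : ∀ {T : Scheme.{0}} (x x' : T ⟶ P), x ≫ π = x' ≫ π → x ≫ e ≫ π' = x' ≫ e ≫ π' := by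
    intro T x x' hx
    obtain ⟨g, hg, -⟩ := h.fibre x x' hx
    obtain ⟨x1, h1, h2⟩ := h'.move (x ≫ e) g hg.1
    rw [Category.assoc, he] at h1
    have h3 : x1 = x' ≫ e := by
      rw [← cancel_mono j', Category.assoc, he]
      exact hom_ext_pb (h1.2.trans hg.2.symm)
    rw [← Category.assoc, h2, h3, Category.assoc]
  choose V s hV hs using h.sect
  let 𝒰 := Y.openCoverOfIsOpenCover V (top_le_iff.mp fun y _ =>
    TopologicalSpace.Opens.mem_iSup.mpr ⟨y, hV y⟩)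
  have hc : ∀ y y', Limits.pullback.fst (V y).ι (V y').ι ≫ s y ≫ e ≫ π' =
      Limits.pullback.snd (V y).ι (V y').ι ≫ s y' ≫ e ≫ π' := fun y y' => by
    rw [← Category.assoc, ← Category.assoc (Limits.pullback.snd _ _)]
    refine key _ _ ?_
    rw [Category.assoc, Category.assoc, hs, hs, Limits.pullback.condition]
  obtain ⟨φ, hφ⟩ : ∃ φ : Y ⟶ Y', ∀ y, (V y).ι ≫ φ = s y ≫ e ≫ π' :=
    ⟨Scheme.Cover.glueMorphisms 𝒰 (fun y => s y ≫ e ≫ π') hc,
      fun y => Scheme.Cover.ι_glueMorphisms 𝒰 (fun y => s y ≫ e ≫ π') hc y⟩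
  refine ⟨e, φ, he, Scheme.Cover.hom_ext (P.openCoverOfIsOpenCover (fun y => π ⁻¹ᵁ V y)
    (top_le_iff.mp fun p _ => TopologicalSpace.Opens.mem_iSup.mpr ⟨π p, hV _⟩)) _ _ fun y => ?_⟩
  change (π ⁻¹ᵁ V y).ι ≫ π ≫ φ = (π ⁻¹ᵁ V y).ι ≫ e ≫ π'
  rw [← Category.assoc, ← morphismRestrict_ι, Category.assoc, hφ, ← Category.assoc]
  refine key _ _ ?_
  rw [Category.assoc, hs, morphismRestrict_ι]

theorem Mixed.rank_eq (h : Mixed ι j π d) (h' : Mixed ι j' π' d) :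
    Module.rank ℚ (CH Y d) = Module.rank ℚ (CH Y' d) := by
  obtain ⟨e, φ, h1, h2⟩ := h.exists_hom h'
  obtain ⟨e', φ', h1', h2'⟩ := h'.exists_hom h
  have := h.isOpen
  have := h'.isOpen
  have h3 : e ≫ e' = 𝟙 _ := by rw [← cancel_mono j, Category.assoc, h1', h1, Category.id_comp]
  have h3' : e' ≫ e = 𝟙 _ := by rw [← cancel_mono j', Category.assoc, h1, h1', Category.id_comp]
  have : IsIso φ := ⟨φ', h.epi (by
    rw [reassoc_of% h2, h2', reassoc_of% h3, Category.comp_id]), h'.epi (by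
    rw [reassoc_of% h2', h2, reassoc_of% h3', Category.comp_id])⟩
  exact rank_of_iso φ

end Pool.Agent.MP_52bf41_ag.H92
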